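import Mathlib

/-!
# Extended complete Chebyshev systems

If the leading Wronskians of a sequence of smooth functions are positive, then so are the
collocation determinants at increasing points.
-/

open Finset Matrix
open scoped BigOperators ContDiff

namespace Pool.Agent.R571.PF

/-- The Wronskian of `v 0, …, v (k-1)`. -/
noncomputable def Wr (v : ℕ → ℝ → ℝ) (k : ℕ) (t : ℝ) : ℝ :=
  (Matrix.of fun i j : Fin k => iteratedDeriv j.1 (v i.1) t).det

lemma wr_mul (u : ℕ → ℝ → ℝ) (f : ℝ → ℝ) (hu : ∀ i, ContDiff ℝ ∞ (u i)) (hf : ContDiff ℝ ∞ f)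
    (k : ℕ) (t : ℝ) : Wr (fun i s => u i s * f s) k t = Wr u k t * f t ^ k := by
  have key : (Matrix.of fun i j : Fin k => iteratedDeriv j.1 (fun s => u i.1 s * f s) t) =
      (Matrix.of fun i j : Fin k => iteratedDeriv j.1 (u i.1) t) *
      (Matrix.of fun l j : Fin k => if l.1 ≤ j.1 then
        ((j.1.choose l.1 : ℕ) : ℝ) * iteratedDeriv (j.1 - l.1) f t else 0) := by
    ext i j
    rw [Matrix.mul_apply]
    simp only [Matrix.of_apply]
    rw [iteratedDeriv_fun_mul ((hu i.1).contDiffAt.of_le (by exact_mod_cast le_top))
      (hf.contDiffAt.of_le (by exact_mod_cast le_top))]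
    rw [Fin.sum_univ_eq_sum_range (fun l => iteratedDeriv l (u i.1) t *
      (if l ≤ j.1 then ((j.1.choose l : ℕ) : ℝ) * iteratedDeriv (j.1 - l) f t else 0)) k]
    rw [← Finset.sum_subset (Finset.range_subset_range.2 (Nat.succ_le_of_lt j.2))]
    · refine Finset.sum_congr rfl fun l hl => ?_
      rw [if_pos (by simpa [Nat.lt_succ_iff] using hl)]
      ring
    · intro l _ hl
      rw [if_neg (by simpa [Nat.lt_succ_iff] using hl), mul_zero]
  unfold Wr
  rw [key, Matrix.det_mul]
  congr 1
  rw [Matrix.det_of_isUpperTriangular]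
  · simp
  · intro i j hij
    simp only [Matrix.of_apply]
    rw [if_neg]
    have : j.1 < i.1 := hij
    omega

lemma wr_one (u : ℕ → ℝ → ℝ) (hu : u 0 = fun _ => 1) (m : ℕ) (t : ℝ) :
    Wr u (m + 1) t = Wr (fun i => deriv (u (i + 1))) m t := by
  unfold Wr
  rw [Matrix.det_succ_row_zero, Fin.sum_univ_succ]
  have h0 : ∀ j : Fin m, (Matrix.of fun i j : Fin (m+1) => iteratedDeriv j.1 (u i.1) t) 0 j.succ = 0 := by
    intro j
    simp only [Matrix.of_apply, Fin.val_zero, hu]
    rw [iteratedDeriv_const]
    simp
  simp only [h0]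
  have h00 : (Matrix.of fun i j : Fin (m+1) => iteratedDeriv j.1 (u i.1) t) 0 0 = 1 := by
    simp [hu]
  rw [h00]
  simp only [mul_zero, zero_mul, Finset.sum_const_zero, add_zero, Fin.val_zero, pow_zero, one_mul]
  congr 1
  ext i j
  simp [iteratedDeriv_succ']

/-- Column-linearity of the determinant, in derivative form. -/
lemma hasDerivAt_det_updateCol {n : ℕ} (A : Matrix (Fin n) (Fin n) ℝ) (j : Fin n)
    (b b' : Fin n → ℝ → ℝ) (t : ℝ) (h : ∀ i, HasDerivAt (b i) (b' i t) t) :
    HasDerivAt (fun s => (A.updateCol j (fun i => b i s)).det)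
      ((A.updateCol j (fun i => b' i t)).det) t := by
  have key : ∀ c : Fin n → ℝ, (A.updateCol j c).det
      = ∑ i, c i * (A.updateCol j (Pi.single i 1)).det := by
    intro c
    have h1 := LinearMap.pi_apply_eq_sum_univ (((LinearMap.proj j : (Fin n → ℝ) →ₗ[ℝ] ℝ)).comp (cramer A)) c
    simp only [LinearMap.comp_apply, LinearMap.proj_apply, cramer_apply, smul_eq_mul] at h1
    rw [h1]
    refine Finset.sum_congr rfl fun i _ => ?_
    congr 3
    ext k
    simp [Pi.single_apply, eq_comm]
  have e1 : (fun s => (A.updateCol j (fun i => b i s)).det)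
      = fun s => ∑ i, b i s * (A.updateCol j (Pi.single i 1)).det := by
    funext s
    rw [key]
  rw [e1, key]
  exact HasDerivAt.fun_sum fun i _ => (h i).mul_const _

lemma det_updateCol_sub {n : ℕ} (A : Matrix (Fin n) (Fin n) ℝ) (j : Fin n)
    (b c : Fin n → ℝ) :
    (A.updateCol j (fun i => b i - c i)).det = (A.updateCol j b).det - (A.updateCol j c).det := by
  have h := map_sub (cramer A) b c
  have h' := congrFun h j
  simp only [cramer_apply, Pi.sub_apply] at h'
  exact h'

/-- Mean value step. -/
lemma det_diff_pos {n : ℕ} (u u' : Fin n → ℝ → ℝ) (hd : ∀ i t, HasDerivAt (u i) (u' i t) t)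
    (hpos : ∀ ξ : Fin n → ℝ, StrictMono ξ → 0 < (Matrix.of fun i j => u' i (ξ j)).det)
    (t : Fin (n + 1) → ℝ) (ht : StrictMono t) :
    0 < (Matrix.of fun i j : Fin n => u i (t j.succ) - u i (t j.castSucc)).det := by
  have main : ∀ m : ℕ, m ≤ n → ∀ ξ : Fin n → ℝ, (∀ j, t j.castSucc < ξ j ∧ ξ j < t j.succ) →
      0 < (Matrix.of fun i j : Fin n => if j.1 < m then u i (t j.succ) - u i (t j.castSucc)
        else u' i (ξ j)).det := by
    intro m
    induction m with
    | zero =>
      intro _ ξ hξ
      simp only [Nat.not_lt_zero, if_false]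
      apply hpos
      intro a b hab
      have h1 := (hξ a).2
      have h2 := (hξ b).1
      have h3 : t a.succ ≤ t b.castSucc := by
        apply ht.monotone
        rw [Fin.le_def]
        simp only [Fin.val_succ, Fin.val_castSucc]
        exact hab
      linarith
    | succ m ih =>
      intro hm ξ hξ
      have hmn : m < n := hm
      set jm : Fin n := ⟨m, hmn⟩ with hjm
      set A : Matrix (Fin n) (Fin n) ℝ := Matrix.of fun i j : Fin n =>
        if j.1 < m then u i (t j.succ) - u i (t j.castSucc) else u' i (ξ j) with hA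
      have e1 : (Matrix.of fun i j : Fin n => if j.1 < m + 1 then u i (t j.succ) - u i (t j.castSucc)
          else u' i (ξ j)) = A.updateCol jm (fun i => u i (t jm.succ) - u i (t jm.castSucc)) := by
        ext i j
        rw [Matrix.updateCol_apply]
        by_cases hj : j = jm
        · subst hj
          rw [if_pos rfl]
          simp [hjm]
        · rw [if_neg hj]
          have hj' : j.1 ≠ m := fun h => hj (Fin.ext h)
          simp only [hA, Matrix.of_apply]
          by_cases h2 : j.1 < m
          · rw [if_pos h2, if_pos (by omega)]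
          · rw [if_neg h2, if_neg (by omega)]
      rw [e1, det_updateCol_sub]
      have hlt : t jm.castSucc < t jm.succ := ht (Fin.castSucc_lt_succ)
      have hcont : ∀ s, HasDerivAt (fun s => (A.updateCol jm (fun i => u i s)).det)
        ((A.updateCol jm (fun i => u' i s)).det) s :=
        fun s => hasDerivAt_det_updateCol A jm u u' s (fun i => hd i s)
      have hmono : StrictMonoOn (fun s => (A.updateCol jm (fun i => u i s)).det)
          (Set.Icc (t jm.castSucc) (t jm.succ)) := by
        apply strictMonoOn_of_deriv_pos (convex_Icc _ _)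
        · exact fun s _ => (hcont s).continuousAt.continuousWithinAt
        · intro s hs
          rw [interior_Icc] at hs
          rw [(hcont s).deriv]
          have e2 : A.updateCol jm (fun i => u' i s) = Matrix.of fun i j : Fin n =>
              if j.1 < m then u i (t j.succ) - u i (t j.castSucc)
              else u' i ((Function.update ξ jm s) j) := by
            ext i j
            rw [Matrix.updateCol_apply]
            by_cases hj : j = jm
            · subst hj
              rw [if_pos rfl]
              simp [hjm]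
            · rw [if_neg hj]
              simp only [hA, Matrix.of_apply, Function.update_of_ne hj]
          rw [e2]
          apply ih hmn.le
          intro j
          by_cases hj : j = jm
          · subst hj
            simpa using hs
          · rw [Function.update_of_ne hj]; exact hξ j
      have := hmono (Set.left_mem_Icc.2 hlt.le) (Set.right_mem_Icc.2 hlt.le) hlt
      simp only at this
      linarith
  have := main n le_rfl (fun j => (t j.castSucc + t j.succ) / 2) (fun j => by
    have : t j.castSucc < t j.succ := ht (Fin.castSucc_lt_succ)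
    constructor <;> linarith)
  have e3 : (Matrix.of fun i j : Fin n => if j.1 < n then u i (t j.succ) - u i (t j.castSucc)
        else u' i ((t j.castSucc + t j.succ) / 2)) =
      (Matrix.of fun i j : Fin n => u i (t j.succ) - u i (t j.castSucc)) := by
    ext i j
    simp
  rwa [e3] at this

/-- **ECT theorem.** -/
theorem ect (n : ℕ) : ∀ (v : ℕ → ℝ → ℝ), (∀ i, ContDiff ℝ ∞ (v i)) →
    (∀ k, k ≤ n → ∀ t, 0 < Wr v k t) →
    ∀ t : Fin n → ℝ, StrictMono t → 0 < (Matrix.of fun i j : Fin n => v i.1 (t j)).det := by
  induction n with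
  | zero => intro v _ _ t _; simp
  | succ n ih =>
    intro v hv hW t ht
    have hv0 : ∀ s, 0 < v 0 s := by
      intro s
      have := hW 1 (by omega) s
      simpa [Wr] using this
    set u : ℕ → ℝ → ℝ := fun i s => v i s / v 0 s with hu
    have hus : ∀ i, ContDiff ℝ ∞ (u i) := fun i => (hv i).div (hv 0) (fun s => (hv0 s).ne')
    have hu0 : u 0 = fun _ => 1 := by
      funext s; simp [hu, (hv0 s).ne']
    have hvu : v = fun i s => u i s * v 0 s := by
      funext i s; simp [hu, (hv0 s).ne']
    have hWu : ∀ k, k ≤ n → ∀ s, 0 < Wr (fun i => deriv (u (i + 1))) k s := by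
      intro k hk s
      rw [← wr_one u hu0]
      have h1 := hW (k + 1) (by omega) s
      have h2 := wr_mul u (v 0) hus (hv 0) (k + 1) s
      rw [← hvu] at h2
      rw [h2] at h1
      exact (pos_iff_pos_of_mul_pos h1).2 (pow_pos (hv0 s) _)
    have hdiff : ∀ i, ContDiff ℝ ∞ (deriv (u (i + 1))) := fun i =>
      (contDiff_infty_iff_deriv.1 (hus (i+1))).2
    have ih' := ih (fun i => deriv (u (i + 1))) hdiff hWu
    -- collocation determinant
    have e1 : (Matrix.of fun i j : Fin (n+1) => v i.1 (t j)).det =
        (∏ j, v 0 (t j)) * (Matrix.of fun i j : Fin (n+1) => u i.1 (t j)).det := by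
      rw [← Matrix.det_mul_row]
      congr 1
      ext i j
      simp only [Matrix.of_apply, hu]
      field_simp [(hv0 (t j)).ne']
    rw [e1]
    refine mul_pos (Finset.prod_pos fun j _ => hv0 _) ?_
    -- subtract columns
    set B : Matrix (Fin (n+1)) (Fin (n+1)) ℝ := Matrix.of fun i j =>
      Fin.cases (motive := fun _ => ℝ) (u i.1 (t 0)) (fun j' : Fin n => u i.1 (t j'.succ) - u i.1 (t j'.castSucc)) j with hB
    have e2 : (Matrix.of fun i j : Fin (n+1) => u i.1 (t j)).det = B.det := by
      apply Matrix.det_eq_of_forall_col_eq_smul_add_pred (fun _ => (1:ℝ))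
      · intro i; simp [hB]
      · intro i j; simp [hB]
    rw [e2, Matrix.det_succ_row_zero, Fin.sum_univ_succ]
    have hB0 : ∀ j : Fin n, B 0 j.succ = 0 := by
      intro j; simp [hB, hu0]
    have hB00 : B 0 0 = 1 := by simp [hB, hu0]
    simp only [hB0, hB00, mul_zero, zero_mul, Finset.sum_const_zero, add_zero, Fin.val_zero,
      pow_zero, one_mul]
    have e3 : B.submatrix Fin.succ (Fin.succAbove 0) =
        Matrix.of fun i j : Fin n => (fun i : Fin n => u (i.1 + 1)) i (t j.succ)
          - (fun i : Fin n => u (i.1 + 1)) i (t j.castSucc) := by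
      ext i j
      simp [hB]
    rw [e3]
    apply det_diff_pos (fun i : Fin n => u (i.1 + 1)) (fun i : Fin n => deriv (u (i.1 + 1)))
    · intro i s
      exact ((hus (i.1+1)).differentiable (by simp)).differentiableAt.hasDerivAt
    · intro ξ hξ
      exact ih' ξ hξ
    · exact ht

/-- **Confluent minors.**  If all confluent minors up to order `n` of a smooth convolution kernel
are positive, so are all the minors up to order `n`. -/
theorem tp_of_confluent (n : ℕ) (K : ℝ → ℝ) (hK : ContDiff ℝ ∞ K)
    (hC : ∀ r, r ≤ n → ∀ s, 0 < (Matrix.of fun i j : Fin r =>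
      (-1 : ℝ) ^ j.1 * iteratedDeriv (i.1 + j.1) K s).det)
    (x y : Fin n → ℝ) (hx : StrictMono x) (hy : StrictMono y) :
    0 < (Matrix.of fun i j : Fin n => K (x i - y j)).det := by
  have hKi : ∀ i, ContDiff ℝ ∞ (iteratedDeriv i K) := by
    intro i
    have : iteratedDeriv i K = deriv^[i] K := iteratedDeriv_eq_iterate
    rw [this]
    exact ContDiff.iterate_deriv i hK
  have hadd : ∀ i j, iteratedDeriv j (iteratedDeriv i K) = iteratedDeriv (i + j) K := by
    intro i j
    simp only [iteratedDeriv_eq_iterate]
    rw [add_comm i j, Function.iterate_add_apply]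
  -- stage A
  have stA : ∀ r, r ≤ n → ∀ s : ℝ, ∀ z : Fin r → ℝ, StrictMono z →
      0 < (Matrix.of fun i j : Fin r => iteratedDeriv i.1 K (s - z j)).det := by
    intro r hr s z hz
    have := ect r (fun i y => iteratedDeriv i K (s - y)) (fun i => (hKi i).comp (by fun_prop)) ?_ z hz
    · exact this
    · intro k hk y
      have h := hC k (hk.trans hr) (s - y)
      unfold Wr
      have e : (Matrix.of fun i j : Fin k => iteratedDeriv j.1 (fun y => iteratedDeriv i.1 K (s - y)) y)
          = (Matrix.of fun i j : Fin k => (-1 : ℝ) ^ j.1 * iteratedDeriv (i.1 + j.1) K (s - y)) := by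
        ext i j
        simp only [Matrix.of_apply]
        rw [iteratedDeriv_comp_const_sub]
        simp [hadd]
      rw [e]; exact h
  -- stage B
  set y' : ℕ → ℝ := fun j => if h : j < n then y ⟨j, h⟩ else 0 with hy'
  have := ect n (fun j x => K (x - y' j)) (fun i => hK.comp (by fun_prop)) ?_ x hx
  · rw [← Matrix.det_transpose] at this
    have e : (Matrix.of fun i j : Fin n => K (x j - y' i.1))ᵀ = Matrix.of fun i j : Fin n => K (x i - y j) := by
      ext i j
      simp [hy', Matrix.transpose_apply]
    rwa [e] at this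
  · intro k hk s
    unfold Wr
    have h := stA k hk s (fun j => y (Fin.castLE hk j)) (hy.comp (Fin.strictMono_castLE hk))
    rw [← Matrix.det_transpose] at h
    have e : (Matrix.of fun i j : Fin k => iteratedDeriv j.1 (fun x => K (x - y' i.1)) s) =
      (Matrix.of fun i j : Fin k => iteratedDeriv i.1 K (s - y (Fin.castLE hk j)))ᵀ := by
      ext i j
      simp only [Matrix.of_apply, Matrix.transpose_apply]
      rw [iteratedDeriv_comp_sub_const]
      have : i.1 < n := lt_of_lt_of_le i.2 hk
      simp only [hy', this, dif_pos]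
      rfl
    rw [e]; exact h

end Pool.Agent.R571.PF
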