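import Pool.Agent.R571.PF.Main

/-!
# Total positivity of order four of `S p0`
-/

open Finset Polynomial Real
open scoped BigOperators ContDiff

namespace Pool.Agent.R571.PF

/-- The `k`-th derivative of `S p0`. -/
noncomputable def Dk (u : ℝ) (k : ℕ) : ℝ := S (T^[k] p0) u

lemma xx_ge {u : ℝ} (hu : 0 ≤ u) : 314 / 100 ≤ xx u := by
  have := pi_le_xx hu
  have := Real.pi_gt_d2
  norm_num at this ⊢
  linarith

lemma EE_pos {x : ℝ} (hx : 314 / 100 ≤ x) : 0 < EE (x - 314 / 100) := by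
  have : 0 ≤ x - 314 / 100 := by linarith
  unfold EE; positivity

lemma qE_le {x : ℝ} (hx : 314 / 100 ≤ x) : exp (-(3 * x)) * (12332 * EE (x - 314 / 100)) ≤ 1 := by
  have hqE := q_bound (x - 314 / 100) (by linarith)
  have exE : 314 / 100 + (x - 314 / 100) = x := by ring
  rwa [exE] at hqE

lemma pos_g1 (u : ℝ) (hu : 0 ≤ u) : 0 < gk u 0 := by
  have hx := xx_ge hu
  have h := (abs_le.1 (P_all u hu 0 (by norm_num)).2).1
  simp only [fk, eval_f0] at h
  have hxd2 := xd_le _ hx 2 (by norm_num)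
  have hq0 := exp_pos (-(3 * xx u))
  have hf0 : 9 ≤ f0 (xx u) := by unfold f0; nlinarith
  have hf04 : 0 ≤ f0 (4 * xx u) := by unfold f0; nlinarith
  have h1 : nn 0 * xx u ^ (0 + 2) * exp (-(8 * xx u)) ≤ 1 := by
    have e : nn 0 * xx u ^ (0 + 2) * exp (-(8 * xx u)) = nn 0 * (xx u ^ 2 * exp (-(8 * xx u))) := by ring
    rw [e]
    calc nn 0 * (xx u ^ 2 * exp (-(8 * xx u))) ≤ nn 0 * ((314 / 100) ^ 2 * (1 / 80600000000)) := by
          apply mul_le_mul_of_nonneg_left hxd2; unfold nn; positivity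
      _ ≤ 1 := by norm_num [nn]
  have hqf : 0 ≤ exp (-(3 * xx u)) * f0 (4 * xx u) := by positivity
  linarith

lemma main2 (x : ℝ) (hx : 314 / 100 ≤ x) :
    9330 * x ^ 9 * exp (-(8 * x)) < 4 ^ 2 * x ^ 3 * (B20 x + exp (-(3 * x)) ^ 1 * B21 x
      + exp (-(3 * x)) ^ 2 * B22 x) := by
  have hx3 : 3 ≤ x := by linarith
  have hx0 : 0 < x := by linarith
  have hxd6 := xd_le _ hx 6 (by norm_num)
  have hB2 := B22_sign x hx3
  have hf2 := fin2 (x - 314 / 100) (by linarith)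
  have exE : 314 / 100 + (x - 314 / 100) = x := by ring
  rw [exE] at hf2
  have hqE := qE_le hx
  have hq0 := exp_pos (-(3 * x))
  set q := exp (-(3 * x)) with hqdef
  set d := exp (-(8 * x)) with hddef
  have hmain : 0 < B20 x - 1 + q * B21 x := by
    have hBpos : 0 < B20 x - 1 := by unfold B20; nlinarith
    have a1 : q * (- B21 x) < q * (12332 * EE (x - 314 / 100) * (B20 x - 1)) :=
      mul_lt_mul_of_pos_left hf2 hq0
    have a2 : q * (12332 * EE (x - 314 / 100) * (B20 x - 1)) ≤ 1 * (B20 x - 1) := by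
      calc q * (12332 * EE (x - 314 / 100) * (B20 x - 1)) = (q * (12332 * EE (x - 314 / 100))) * (B20 x - 1) := by ring
        _ ≤ _ := mul_le_mul_of_nonneg_right hqE hBpos.le
    linarith
  have e9 : 9330 * x ^ 9 * d ≤ 16 * x ^ 3 * 1 := by
    calc 9330 * x ^ 9 * d = x ^ 3 * (9330 * (x ^ 6 * d)) := by ring
      _ ≤ x ^ 3 * (9330 * ((314 / 100) ^ 6 * (1 / 80600000000))) := by gcongr
      _ ≤ x ^ 3 * 16 := by
          apply mul_le_mul_of_nonneg_left (by norm_num) (by positivity)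
      _ = _ := by ring
  have hfin : 0 < 4 ^ 2 * x ^ 3 * (B20 x + q ^ 1 * B21 x + q ^ 2 * B22 x) - 16 * x ^ 3 * 1 := by
    have e : 4 ^ 2 * x ^ 3 * (B20 x + q ^ 1 * B21 x + q ^ 2 * B22 x) - 16 * x ^ 3 * 1
        = 16 * x ^ 3 * ((B20 x - 1 + q * B21 x) + q ^ 2 * B22 x) := by ring
    rw [e]; positivity
  linarith

lemma main3 (x : ℝ) (hx : 314 / 100 ≤ x) :
    5020000 * x ^ 18 * exp (-(8 * x)) < 4 ^ 6 * x ^ 6 * (B30 x + exp (-(3 * x)) ^ 1 * B31 x
      + exp (-(3 * x)) ^ 2 * B32 x + exp (-(3 * x)) ^ 3 * B33 x) := by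
  have hx3 : 3 ≤ x := by linarith
  have hx0 : 0 < x := by linarith
  have hxd12 := xd_le _ hx 12 (by norm_num)
  have hB1 := B31_sign x hx3
  have hB2 := B32_sign x hx3
  have hB3 := B33_sign x hx3
  have hq0 := exp_pos (-(3 * x))
  set q := exp (-(3 * x)) with hqdef
  set d := exp (-(8 * x)) with hddef
  have hmain : 0 < B30 x - 1 := by
    obtain ⟨t, ht, hxt⟩ : ∃ t : ℝ, 0 ≤ t ∧ x = 3 + t := ⟨x - 3, by linarith, by ring⟩
    rw [hxt]
    unfold B30; ring_nf; positivity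
  have e9 : 5020000 * x ^ 18 * d ≤ 4096 * x ^ 6 * 1 := by
    calc 5020000 * x ^ 18 * d = x ^ 6 * (5020000 * (x ^ 12 * d)) := by ring
      _ ≤ x ^ 6 * (5020000 * ((314 / 100) ^ 12 * (1 / 80600000000))) := by gcongr
      _ ≤ x ^ 6 * 4096 := by
          apply mul_le_mul_of_nonneg_left (by norm_num) (by positivity)
      _ = _ := by ring
  have hfin : 0 < 4 ^ 6 * x ^ 6 * (B30 x + q ^ 1 * B31 x + q ^ 2 * B32 x + q ^ 3 * B33 x) - 4096 * x ^ 6 * 1 := by
    have e : 4 ^ 6 * x ^ 6 * (B30 x + q ^ 1 * B31 x + q ^ 2 * B32 x + q ^ 3 * B33 x) - 4096 * x ^ 6 * 1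
        = 4096 * x ^ 6 * ((B30 x - 1) + q * B31 x + q ^ 2 * B32 x + q ^ 3 * B33 x) := by ring
    rw [e]; positivity
  linarith

lemma main4 (x : ℝ) (hx : 314 / 100 ≤ x) :
    76500000000 * x ^ 29 * exp (-(8 * x)) < 4 ^ 12 * x ^ 10 * (B40 x + exp (-(3 * x)) ^ 1 * B41 x
      + exp (-(3 * x)) ^ 2 * B42 x + exp (-(3 * x)) ^ 3 * B43 x + exp (-(3 * x)) ^ 4 * B44 x) := by
  have hx3 : 3 ≤ x := by linarith
  have hx0 : 0 < x := by linarith
  have hxd19 := xd_le _ hx 19 (by norm_num)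
  have hB2 := B42_sign x hx3
  have hB3 := B43_sign x hx3
  have hB4 := B44_sign x hx3
  have hf4 := fin4 (x - 314 / 100) (by linarith)
  have exE : 314 / 100 + (x - 314 / 100) = x := by ring
  rw [exE] at hf4
  have hqE := qE_le hx
  have hqle := q_le _ hx
  have hq0 := exp_pos (-(3 * x))
  set q := exp (-(3 * x)) with hqdef
  set d := exp (-(8 * x)) with hddef
  have hmain : 0 < B40 x - 160 + q * B41 x + q ^ 3 * B43 x := by
    have hBpos : 0 < B40 x - 160 := by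
      obtain ⟨t, ht, hxt⟩ : ∃ t : ℝ, 0 ≤ t ∧ x = 3 + t := ⟨x - 3, by linarith, by ring⟩
      rw [hxt]
      unfold B40; ring_nf; positivity
    have a1 : q * (- B41 x - (1 / 12332) ^ 2 * B43 x) < q * (12332 * EE (x - 314 / 100) * (B40 x - 160)) :=
      mul_lt_mul_of_pos_left hf4 hq0
    have a2 : q * (12332 * EE (x - 314 / 100) * (B40 x - 160)) ≤ 1 * (B40 x - 160) := by
      calc q * (12332 * EE (x - 314 / 100) * (B40 x - 160)) = (q * (12332 * EE (x - 314 / 100))) * (B40 x - 160) := by ring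
        _ ≤ _ := mul_le_mul_of_nonneg_right hqE hBpos.le
    have a3 : q * ((1 / 12332) ^ 2 * B43 x) ≤ q ^ 3 * B43 x := by
      have : q ^ 2 ≤ (1 / 12332) ^ 2 := by gcongr
      have h5 : (1 / 12332) ^ 2 * B43 x ≤ q ^ 2 * B43 x := mul_le_mul_of_nonpos_right this hB3.le
      calc q * ((1 / 12332) ^ 2 * B43 x) ≤ q * (q ^ 2 * B43 x) := mul_le_mul_of_nonneg_left h5 hq0.le
        _ = _ := by ring
    have a4 : q * (- B41 x - (1 / 12332) ^ 2 * B43 x) = - (q * B41 x) - q * ((1 / 12332) ^ 2 * B43 x) := by ring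
    linarith
  have e9 : 76500000000 * x ^ 29 * d ≤ 16777216 * x ^ 10 * 160 := by
    calc 76500000000 * x ^ 29 * d = x ^ 10 * (76500000000 * (x ^ 19 * d)) := by ring
      _ ≤ x ^ 10 * (76500000000 * ((314 / 100) ^ 19 * (1 / 80600000000))) := by gcongr
      _ ≤ x ^ 10 * (16777216 * 160) := by
          apply mul_le_mul_of_nonneg_left (by norm_num) (by positivity)
      _ = _ := by ring
  have hfin : 0 < 4 ^ 12 * x ^ 10 * (B40 x + q ^ 1 * B41 x + q ^ 2 * B42 x + q ^ 3 * B43 x + q ^ 4 * B44 x)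
      - 16777216 * x ^ 10 * 160 := by
    have e : 4 ^ 12 * x ^ 10 * (B40 x + q ^ 1 * B41 x + q ^ 2 * B42 x + q ^ 3 * B43 x + q ^ 4 * B44 x)
        - 16777216 * x ^ 10 * 160
        = 16777216 * x ^ 10 * ((B40 x - 160 + q * B41 x + q ^ 3 * B43 x) + q ^ 2 * B42 x + q ^ 4 * B44 x) := by ring
    rw [e]; positivity
  linarith

lemma pos_g2 (u : ℝ) (hu : 0 ≤ u) : 0 < - H2 (gk u 0) (gk u 1) (gk u 2) := by
  have hx := xx_ge hu
  have hx3 : 3 ≤ xx u := by linarith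
  have h := (abs_le.1 (P2 (a := gk u) (b := fun k => fk k (xx u) + exp (-(3 * xx u)) * fk k (4 * xx u))
    (m := fun k => cc k * (xx u) ^ (k + 5))
    (s := fun k => cc k * (xx u) ^ (k + 5) + nn k * (xx u) ^ (k + 2) * exp (-(8 * xx u)))
    (fun k hk => P_all u hu k (by omega))).2).2
  simp only [fk, eval_f0, eval_f1, eval_f2] at h
  have er2 := err2 (xx u) _ hx3 (exp_pos (-(8 * xx u))).le (d_le _ hx3)
  have hi2 := H2_ident (xx u) (exp (-(3 * xx u)))
  have hm := main2 (xx u) hx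
  linarith

lemma pos_g3 (u : ℝ) (hu : 0 ≤ u) : 0 < - H3 (gk u 0) (gk u 1) (gk u 2) (gk u 3) (gk u 4) := by
  have hx := xx_ge hu
  have hx3 : 3 ≤ xx u := by linarith
  have h := (abs_le.1 (P3 (a := gk u) (b := fun k => fk k (xx u) + exp (-(3 * xx u)) * fk k (4 * xx u))
    (m := fun k => cc k * (xx u) ^ (k + 5))
    (s := fun k => cc k * (xx u) ^ (k + 5) + nn k * (xx u) ^ (k + 2) * exp (-(8 * xx u)))
    (fun k hk => P_all u hu k (by omega))).2).2
  simp only [fk, eval_f0, eval_f1, eval_f2, eval_f3, eval_f4] at h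
  have er3 := err3 (xx u) _ hx3 (exp_pos (-(8 * xx u))).le (d_le _ hx3)
  have hi3 := H3_ident (xx u) (exp (-(3 * xx u)))
  have hm := main3 (xx u) hx
  linarith

lemma pos_g4 (u : ℝ) (hu : 0 ≤ u) :
    0 < H4 (gk u 0) (gk u 1) (gk u 2) (gk u 3) (gk u 4) (gk u 5) (gk u 6) := by
  have hx := xx_ge hu
  have hx3 : 3 ≤ xx u := by linarith
  have h := (abs_le.1 (P4 (a := gk u) (b := fun k => fk k (xx u) + exp (-(3 * xx u)) * fk k (4 * xx u))
    (m := fun k => cc k * (xx u) ^ (k + 5))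
    (s := fun k => cc k * (xx u) ^ (k + 5) + nn k * (xx u) ^ (k + 2) * exp (-(8 * xx u)))
    (fun k hk => P_all u hu k (by omega))).2).1
  simp only [fk, eval_f0, eval_f1, eval_f2, eval_f3, eval_f4, eval_f5, eval_f6] at h
  have er4 := err4 (xx u) _ hx3 (exp_pos (-(8 * xx u))).le (d_le _ hx3)
  have hi4 := H4_ident (xx u) (exp (-(3 * xx u)))
  have hm := main4 (xx u) hx
  linarith

lemma pos_D_nonneg (u : ℝ) (hu : 0 ≤ u) :
    0 < Dk u 0 ∧ 0 < - H2 (Dk u 0) (Dk u 1) (Dk u 2)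
    ∧ 0 < - H3 (Dk u 0) (Dk u 1) (Dk u 2) (Dk u 3) (Dk u 4)
    ∧ 0 < H4 (Dk u 0) (Dk u 1) (Dk u 2) (Dk u 3) (Dk u 4) (Dk u 5) (Dk u 6) := by
  have h1 := pos_g1 u hu
  have h2 := pos_g2 u hu
  have h3 := pos_g3 u hu
  have h4 := pos_g4 u hu
  have hg : ∀ k, gk u k = exp (xx u - u) * Dk u k := fun k => rfl
  have hE := exp_pos (xx u - u)
  rw [hg] at h1
  simp only [hg] at h2 h3 h4
  set E := exp (xx u - u) with hEdef
  refine ⟨(pos_iff_pos_of_mul_pos h1).1 hE, ?_, ?_, ?_⟩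
  · have e : - H2 (E * Dk u 0) (E * Dk u 1) (E * Dk u 2) = E ^ 2 * (- H2 (Dk u 0) (Dk u 1) (Dk u 2)) := by
      unfold H2; ring
    rw [e] at h2
    exact (pos_iff_pos_of_mul_pos h2).1 (by positivity)
  · have e : - H3 (E * Dk u 0) (E * Dk u 1) (E * Dk u 2) (E * Dk u 3) (E * Dk u 4)
        = E ^ 3 * (- H3 (Dk u 0) (Dk u 1) (Dk u 2) (Dk u 3) (Dk u 4)) := by
      unfold H3; ring
    rw [e] at h3
    exact (pos_iff_pos_of_mul_pos h3).1 (by positivity)
  · have e : H4 (E * Dk u 0) (E * Dk u 1) (E * Dk u 2) (E * Dk u 3) (E * Dk u 4) (E * Dk u 5) (E * Dk u 6)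
        = E ^ 4 * H4 (Dk u 0) (Dk u 1) (Dk u 2) (Dk u 3) (Dk u 4) (Dk u 5) (Dk u 6) := by
      unfold H4; ring
    rw [e] at h4
    exact (pos_iff_pos_of_mul_pos h4).1 (by positivity)

lemma Dk_neg (u : ℝ) (k : ℕ) : Dk u k = (-1) ^ k * Dk (-u) k := by
  have e : (fun x => S p0 (-x)) = S p0 := funext S_even
  have h := iteratedDeriv_comp_neg k (S p0) u
  rw [e] at h
  simpa [Dk, iteratedDeriv_S] using h

lemma pos_D (u : ℝ) :
    0 < Dk u 0 ∧ 0 < - H2 (Dk u 0) (Dk u 1) (Dk u 2)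
    ∧ 0 < - H3 (Dk u 0) (Dk u 1) (Dk u 2) (Dk u 3) (Dk u 4)
    ∧ 0 < H4 (Dk u 0) (Dk u 1) (Dk u 2) (Dk u 3) (Dk u 4) (Dk u 5) (Dk u 6) := by
  rcases le_total 0 u with hu | hu
  · exact pos_D_nonneg u hu
  · obtain ⟨h1, h2, h3, h4⟩ := pos_D_nonneg (-u) (by linarith)
    have e := Dk_neg u
    rw [e 0, e 1, e 2, e 3, e 4, e 5, e 6]
    refine ⟨by simpa using h1, ?_, ?_, ?_⟩
    · convert h2 using 1
      unfold H2; ring
    · convert h3 using 1
      unfold H3; ring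
    · convert h4 using 1
      unfold H4; ring

/-- All minors of order at most four of `S p0 (x - y)` are positive. -/
theorem minors_pos (r : ℕ) (hr : r ≤ 4) (x y : Fin r → ℝ) (hx : StrictMono x) (hy : StrictMono y) :
    0 < (Matrix.of fun i j : Fin r => S p0 (x i - y j)).det := by
  refine tp_of_confluent r (S p0) (contDiff_S p0) ?_ x y hx hy
  intro k hk s
  have e : (Matrix.of fun i j : Fin k => (-1 : ℝ) ^ j.1 * iteratedDeriv (i.1 + j.1) (S p0) s) =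
      (Matrix.of fun i j : Fin k => (-1 : ℝ) ^ j.1 * Dk s (i.1 + j.1)) := by
    ext i j
    simp only [Matrix.of_apply, iteratedDeriv_S, Dk]
  rw [e]
  obtain ⟨h1, h2, h3, h4⟩ := pos_D s
  have hk4 : k ≤ 4 := hk.trans hr
  interval_cases k
  · simp
  · rw [det1]; exact h1
  · rw [det2]; exact h2
  · rw [det3]; exact h3
  · rw [det4]; exact h4

end Pool.Agent.R571.PF
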