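import Pool.Agent.R571.PF.Num

/-!
# Hankel determinants of the two leading terms
-/

open Finset Polynomial Real
open scoped BigOperators ContDiff

namespace Pool.Agent.R571.PF

/-- Coefficient of `q^0` in the order-2 Hankel determinant. -/
def B20 (x : ℝ) : ℝ := 15 - 12 * x + 4 * x ^ 2
lemma B20_sign (x : ℝ) (hx : 3 ≤ x) : 0 < B20 x := by
  obtain ⟨t, ht, rfl⟩ : ∃ t : ℝ, 0 ≤ t ∧ x = 3 + t := ⟨x - 3, by linarith, by ring⟩
  unfold B20; ring_nf; positivity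

/-- Coefficient of `q^1` in the order-2 Hankel determinant. -/
def B21 (x : ℝ) : ℝ := 300 - 1356 * x + 1400 * x ^ 2 - 576 * x ^ 3
lemma B21_sign (x : ℝ) (hx : 3 ≤ x) : B21 x < 0 := by
  obtain ⟨t, ht, rfl⟩ : ∃ t : ℝ, 0 ≤ t ∧ x = 3 + t := ⟨x - 3, by linarith, by ring⟩
  have : 0 < - B21 (3 + t) := by unfold B21; ring_nf; positivity
  linarith

/-- Coefficient of `q^2` in the order-2 Hankel determinant. -/
def B22 (x : ℝ) : ℝ := 960 - 3072 * x + 4096 * x ^ 2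
lemma B22_sign (x : ℝ) (hx : 3 ≤ x) : 0 < B22 x := by
  obtain ⟨t, ht, rfl⟩ : ∃ t : ℝ, 0 ≤ t ∧ x = 3 + t := ⟨x - 3, by linarith, by ring⟩
  unfold B22; ring_nf; positivity

/-- Coefficient of `q^0` in the order-3 Hankel determinant. -/
def B30 (x : ℝ) : ℝ := -210 + 180 * x - 72 * x ^ 2 + 16 * x ^ 3
lemma B30_sign (x : ℝ) (hx : 3 ≤ x) : 0 < B30 x := by
  obtain ⟨t, ht, rfl⟩ : ∃ t : ℝ, 0 ≤ t ∧ x = 3 + t := ⟨x - 3, by linarith, by ring⟩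
  unfold B30; ring_nf; positivity

/-- Coefficient of `q^1` in the order-3 Hankel determinant. -/
def B31 (x : ℝ) : ℝ := -17640 + 117720 * x - 193428 * x ^ 2 + 141456 * x ^ 3 - 55728 * x ^ 4 + 10368 * x ^ 5
lemma B31_sign (x : ℝ) (hx : 3 ≤ x) : 0 < B31 x := by
  obtain ⟨t, ht, rfl⟩ : ∃ t : ℝ, 0 ≤ t ∧ x = 3 + t := ⟨x - 3, by linarith, by ring⟩
  unfold B31; ring_nf; positivity

/-- Coefficient of `q^2` in the order-3 Hankel determinant. -/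
def B32 (x : ℝ) : ℝ := -282240 + 1658880 * x - 3993408 * x ^ 2 + 4232064 * x ^ 3 - 2377728 * x ^ 4 + 663552 * x ^ 5
lemma B32_sign (x : ℝ) (hx : 3 ≤ x) : 0 < B32 x := by
  obtain ⟨t, ht, rfl⟩ : ∃ t : ℝ, 0 ≤ t ∧ x = 3 + t := ⟨x - 3, by linarith, by ring⟩
  unfold B32; ring_nf; positivity

/-- Coefficient of `q^3` in the order-3 Hankel determinant. -/
def B33 (x : ℝ) : ℝ := -860160 + 2949120 * x - 4718592 * x ^ 2 + 4194304 * x ^ 3
lemma B33_sign (x : ℝ) (hx : 3 ≤ x) : 0 < B33 x := by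
  obtain ⟨t, ht, rfl⟩ : ∃ t : ℝ, 0 ≤ t ∧ x = 3 + t := ⟨x - 3, by linarith, by ring⟩
  unfold B33; ring_nf; positivity

/-- Coefficient of `q^0` in the order-4 Hankel determinant. -/
def B40 (x : ℝ) : ℝ := 11340 - 10080 * x + 4320 * x ^ 2 - 1152 * x ^ 3 + 192 * x ^ 4
lemma B40_sign (x : ℝ) (hx : 3 ≤ x) : 0 < B40 x := by
  obtain ⟨t, ht, rfl⟩ : ∃ t : ℝ, 0 ≤ t ∧ x = 3 + t := ⟨x - 3, by linarith, by ring⟩
  unfold B40; ring_nf; positivity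

/-- Coefficient of `q^1` in the order-4 Hankel determinant. -/
def B41 (x : ℝ) : ℝ := 3855600 - 34438320 * x + 76309560 * x ^ 2 - 75415176 * x ^ 3 + 42294288 * x ^ 4 - 15129504 * x ^ 5 + 3436992 * x ^ 6 - 373248 * x ^ 7
lemma B41_sign (x : ℝ) (hx : 3 ≤ x) : B41 x < 0 := by
  obtain ⟨t, ht, rfl⟩ : ∃ t : ℝ, 0 ≤ t ∧ x = 3 + t := ⟨x - 3, by linarith, by ring⟩
  have : 0 < - B41 (3 + t) := by unfold B41; ring_nf; positivity
  linarith

/-- Coefficient of `q^2` in the order-4 Hankel determinant. -/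
def B42 (x : ℝ) : ℝ := 259096320 - 2252275200 * x + 8197562880 * x ^ 2 - 14278049280 * x ^ 3 + 14124640320 * x ^ 4 - 8737009920 * x ^ 5 + 3516804864 * x ^ 6 - 880865280 * x ^ 7 + 107495424 * x ^ 8
lemma B42_sign (x : ℝ) (hx : 3 ≤ x) : 0 < B42 x := by
  obtain ⟨t, ht, rfl⟩ : ∃ t : ℝ, 0 ≤ t ∧ x = 3 + t := ⟨x - 3, by linarith, by ring⟩
  unfold B42; ring_nf; positivity

/-- Coefficient of `q^3` in the order-4 Hankel determinant. -/
def B43 (x : ℝ) : ℝ := 3948134400 - 25200967680 * x + 74630799360 * x ^ 2 - 127602008064 * x ^ 3 + 126739365888 * x ^ 4 - 78065565696 * x ^ 5 + 30321672192 * x ^ 6 - 6115295232 * x ^ 7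
lemma B43_sign (x : ℝ) (hx : 3 ≤ x) : B43 x < 0 := by
  obtain ⟨t, ht, rfl⟩ : ∃ t : ℝ, 0 ≤ t ∧ x = 3 + t := ⟨x - 3, by linarith, by ring⟩
  have : 0 < - B43 (3 + t) := by unfold B43; ring_nf; positivity
  linarith

/-- Coefficient of `q^4` in the order-4 Hankel determinant. -/
def B44 (x : ℝ) : ℝ := 11890851840 - 42278584320 * x + 72477573120 * x ^ 2 - 77309411328 * x ^ 3 + 51539607552 * x ^ 4
lemma B44_sign (x : ℝ) (hx : 3 ≤ x) : 0 < B44 x := by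
  obtain ⟨t, ht, rfl⟩ : ∃ t : ℝ, 0 ≤ t ∧ x = 3 + t := ⟨x - 3, by linarith, by ring⟩
  unfold B44; ring_nf; positivity

set_option maxRecDepth 10000 in
lemma H2_ident (x q : ℝ) : -H2 (f0 x + q * f0 (4 * x)) (f1 x + q * f1 (4 * x)) (f2 x + q * f2 (4 * x))
    = 4 ^ 2 * x ^ 3 * (B20 x + q ^ 1 * B21 x + q ^ 2 * B22 x) := by
  simp only [H2, f0, f1, f2, B20, B21, B22]
  ring

set_option maxRecDepth 10000 in
lemma H3_ident (x q : ℝ) : -H3 (f0 x + q * f0 (4 * x)) (f1 x + q * f1 (4 * x)) (f2 x + q * f2 (4 * x)) (f3 x + q * f3 (4 * x)) (f4 x + q * f4 (4 * x))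
    = 4 ^ 6 * x ^ 6 * (B30 x + q ^ 1 * B31 x + q ^ 2 * B32 x + q ^ 3 * B33 x) := by
  simp only [H3, f0, f1, f2, f3, f4, B30, B31, B32, B33]
  ring

set_option maxRecDepth 10000 in
lemma H4_ident (x q : ℝ) : H4 (f0 x + q * f0 (4 * x)) (f1 x + q * f1 (4 * x)) (f2 x + q * f2 (4 * x)) (f3 x + q * f3 (4 * x)) (f4 x + q * f4 (4 * x)) (f5 x + q * f5 (4 * x)) (f6 x + q * f6 (4 * x))
    = 4 ^ 12 * x ^ 10 * (B40 x + q ^ 1 * B41 x + q ^ 2 * B42 x + q ^ 3 * B43 x + q ^ 4 * B44 x) := by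
  simp only [H4, f0, f1, f2, f3, f4, f5, f6, B40, B41, B42, B43, B44]
  ring

end Pool.Agent.R571.PF
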