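import Pool.Agent.R571.PF.Ident
import Pool.Agent.R571.PF.Ect

/-!
# Positivity of the confluent minors of order at most four
-/

open Finset Polynomial Real
open scoped BigOperators ContDiff

namespace Pool.Agent.R571.PF

/-- Constants bounding the two leading terms. -/
noncomputable def cc : ℕ → ℝ
  | 0 => 1 / 25
  | 1 => 37 / 1000
  | 2 => 17 / 50
  | 3 => 61 / 100
  | 4 => 32 / 5
  | 5 => 76 / 5
  | _ => 192

/-- Constants bounding the tail. -/
noncomputable def nn (k : ℕ) : ℝ := 2 * 4 ^ k * (21 / 20) * 9 ^ (k + 2)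

/-- The `k`-th derivative polynomial as a function. -/
noncomputable def fk (k : ℕ) (z : ℝ) : ℝ := (T^[k] p0).eval z

/-- Normalised `k`-th derivative. -/
noncomputable def gk (u : ℝ) (k : ℕ) : ℝ := exp (xx u - u) * S (T^[k] p0) u

lemma exp_942 : 12332 ≤ exp (942 / 100) := by
  have e : exp (942 / 100) = exp 1 ^ 9 * exp (21 / 50) := by
    rw [← exp_nat_mul, ← exp_add]; norm_num
  have h1 : (2.7182818283 : ℝ) ^ 9 ≤ exp 1 ^ 9 := by
    gcongr; exact Real.exp_one_gt_d9.le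
  have h2 := Real.sum_le_exp_of_nonneg (x := 21 / 50) (by norm_num) 6
  rw [e]
  simp only [Finset.sum_range_succ, Finset.sum_range_zero] at h2
  norm_num [Nat.factorial] at h2
  calc (12332 : ℝ) ≤ 2.7182818283 ^ 9 * (19024418117 / 12500000000) := by norm_num
    _ ≤ exp 1 ^ 9 * exp (21 / 50) := mul_le_mul h1 h2 (by norm_num) (by positivity)

lemma exp_2512 : 80600000000 ≤ exp (2512 / 100) := by
  have e : exp (2512 / 100) = exp 1 ^ 25 * exp (12 / 100) := by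
    rw [← exp_nat_mul, ← exp_add]; norm_num
  have h1 : (2.7182818283 : ℝ) ^ 25 ≤ exp 1 ^ 25 := by
    gcongr; exact Real.exp_one_gt_d9.le
  have h2 : (112 / 100 : ℝ) ≤ exp (12 / 100) := by
    have := Real.add_one_le_exp (12 / 100 : ℝ)
    linarith
  rw [e]
  calc (80600000000 : ℝ) ≤ 2.7182818283 ^ 25 * (112 / 100) := by norm_num
    _ ≤ exp 1 ^ 25 * exp (12 / 100) := mul_le_mul h1 h2 (by norm_num) (by positivity)

lemma exp_24 : 10000000000 ≤ exp 24 := by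
  have e : exp 24 = exp 1 ^ 24 := by
    rw [← exp_nat_mul]; norm_num
  rw [e]
  calc (10000000000 : ℝ) ≤ 2.7182818283 ^ 24 := by norm_num
    _ ≤ exp 1 ^ 24 := by gcongr; exact Real.exp_one_gt_d9.le

/-- Taylor polynomial of `e^{3t}`. -/
noncomputable def EE (t : ℝ) : ℝ := 1 + 3 * t + 9 / 2 * t ^ 2 + 9 / 2 * t ^ 3 + 27 / 8 * t ^ 4

lemma q_bound (t : ℝ) (ht : 0 ≤ t) : exp (-(3 * (314 / 100 + t))) * (12332 * EE t) ≤ 1 := by
  have h2 := Real.sum_le_exp_of_nonneg (x := 3 * t) (by positivity) 5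
  simp only [Finset.sum_range_succ, Finset.sum_range_zero] at h2
  norm_num [Nat.factorial] at h2
  have h3 : EE t ≤ exp (3 * t) := by
    refine le_trans (le_of_eq ?_) h2
    unfold EE; ring
  have h0 : 0 ≤ EE t := by unfold EE; positivity
  have e : exp (-(3 * (314 / 100 + t))) * (exp (942 / 100) * exp (3 * t)) = 1 := by
    rw [← exp_add, ← exp_add]
    have : -(3 * (314 / 100 + t)) + (942 / 100 + 3 * t) = 0 := by ring
    rw [this, exp_zero]
  rw [← e]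
  gcongr
  exact exp_942

lemma q_le (x : ℝ) (hx : 314 / 100 ≤ x) : exp (-(3 * x)) ≤ 1 / 12332 := by
  have h := q_bound (x - 314 / 100) (by linarith)
  have e : 314 / 100 + (x - 314 / 100) = x := by ring
  rw [e] at h
  have h1 : 1 ≤ EE (x - 314 / 100) := by
    have : 0 ≤ x - 314 / 100 := by linarith
    unfold EE; 
    have h2 : 0 ≤ 3 * (x - 314 / 100) + 9 / 2 * (x - 314 / 100) ^ 2 + 9 / 2 * (x - 314 / 100) ^ 3 + 27 / 8 * (x - 314 / 100) ^ 4 := by positivity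
    linarith
  rw [le_div_iff₀ (by norm_num)]
  nlinarith [exp_pos (-(3 * x))]

lemma d_le (x : ℝ) (hx : 3 ≤ x) : exp (-(8 * x)) ≤ 1 / 10000000000 * x ^ 3 := by
  have h1 : exp (-(8 * x)) ≤ exp (-24) := exp_le_exp.2 (by linarith)
  have h2 : exp (-24) ≤ 1 / 10000000000 := by
    rw [exp_neg, inv_eq_one_div]
    exact one_div_le_one_div_of_le (by norm_num) exp_24
  have h3 : (1 : ℝ) ≤ x ^ 3 := one_le_pow₀ (by linarith)
  nlinarith

lemma xd_le (x : ℝ) (hx : 314 / 100 ≤ x) (j : ℕ) (hj : j ≤ 25) :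
    x ^ j * exp (-(8 * x)) ≤ (314 / 100) ^ j * (1 / 80600000000) := by
  have e1 : x = 314 / 100 * (1 + (x / (314 / 100) - 1)) := by ring
  have h0 : 0 ≤ x / (314 / 100) - 1 := by
    rw [sub_nonneg, le_div_iff₀ (by norm_num)]; linarith
  have h1 : x ^ j ≤ (314 / 100) ^ j * exp (8 * (x - 314 / 100)) := by
    calc x ^ j = (314 / 100) ^ j * (1 + (x / (314 / 100) - 1)) ^ j := by rw [← mul_pow, ← e1]
      _ ≤ (314 / 100) ^ j * (exp (x / (314 / 100) - 1)) ^ j := by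
          gcongr
          rw [add_comm]; exact add_one_le_exp _
      _ = (314 / 100) ^ j * exp (j * (x / (314 / 100) - 1)) := by rw [← exp_nat_mul]
      _ ≤ (314 / 100) ^ j * exp (8 * (x - 314 / 100)) := by
          apply mul_le_mul_of_nonneg_left _ (by positivity)
          apply exp_le_exp.2
          have hj' : (j : ℝ) ≤ 25 := by exact_mod_cast hj
          have : (j : ℝ) * (x / (314 / 100) - 1) ≤ 25 * (x / (314 / 100) - 1) :=
            mul_le_mul_of_nonneg_right hj' h0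
          have e2 : 25 * (x / (314 / 100) - 1) = 25 / (314 / 100) * (x - 314 / 100) := by ring
          rw [e2] at this
          have h3 : 25 / (314 / 100) * (x - 314 / 100) ≤ 8 * (x - 314 / 100) := by
            apply mul_le_mul_of_nonneg_right (by norm_num) (by linarith)
          linarith
  have h2 : exp (8 * (x - 314 / 100)) * exp (-(8 * x)) = exp (-(2512 / 100)) := by
    rw [← exp_add]; congr 1; ring
  have h3 : exp (-(2512 / 100)) ≤ 1 / 80600000000 := by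
    rw [exp_neg, inv_eq_one_div]
    exact one_div_le_one_div_of_le (by norm_num) exp_2512
  calc x ^ j * exp (-(8 * x)) ≤ ((314 / 100) ^ j * exp (8 * (x - 314 / 100))) * exp (-(8 * x)) := by gcongr
    _ = (314 / 100) ^ j * exp (-(2512 / 100)) := by rw [mul_assoc, h2]
    _ ≤ _ := by gcongr

lemma P_all (u : ℝ) (hu : 0 ≤ u) (k : ℕ) (hk : k < 7) :
    P (gk u k) (fk k (xx u) + exp (-(3 * xx u)) * fk k (4 * xx u)) (cc k * (xx u) ^ (k + 5))
      (cc k * (xx u) ^ (k + 5) + nn k * (xx u) ^ (k + 2) * exp (-(8 * xx u))) := by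
  have hx : 314 / 100 ≤ xx u := by
    have := pi_le_xx hu
    have := Real.pi_gt_d2
    norm_num at this ⊢
    linarith
  have hx3 : 3 ≤ xx u := by linarith
  have hq := q_le _ hx
  have hq0 := exp_pos (-(3 * xx u))
  set x := xx u with hxdef
  have key : ∀ (f : ℝ → ℝ) (a b : ℝ), 0 ≤ a → 0 ≤ b → (∀ z, (T^[k] p0).eval z = f z) →
      (∀ z : ℝ, 27 ≤ z → |f z| ≤ 2 * 4 ^ k * z ^ (k + 2)) →
      |f x| ≤ a * x ^ (k + 5) → |f (4 * x)| ≤ b * x ^ (k + 5) → cc k = a + b / 12332 →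
      P (gk u k) (fk k x + exp (-(3 * x)) * fk k (4 * x)) (cc k * x ^ (k + 5))
      (cc k * x ^ (k + 5) + nn k * x ^ (k + 2) * exp (-(8 * x))) := by
    intro f a b ha hb hf h27 hfa hfb hc
    constructor
    · unfold fk
      rw [hf, hf, hc]
      calc |f x + exp (-(3 * x)) * f (4 * x)| ≤ |f x| + |exp (-(3 * x)) * f (4 * x)| := abs_add_le _ _
        _ = |f x| + exp (-(3 * x)) * |f (4 * x)| := by rw [abs_mul, abs_of_pos hq0]
        _ ≤ a * x ^ (k + 5) + (1 / 12332) * (b * x ^ (k + 5)) := by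
            apply add_le_add hfa
            exact mul_le_mul hq hfb (abs_nonneg _) (by norm_num)
        _ = _ := by ring
    · have h := tail_bound (T^[k] p0) (2 * 4 ^ k) (k + 2) (by omega) (by positivity)
        (fun z hz => by rw [hf]; exact h27 z hz) u hu
      unfold gk fk
      rw [← hxdef] at h ⊢
      refine h.trans (le_of_eq ?_)
      unfold nn
      rw [mul_pow]
      ring
  interval_cases k
  · exact key f0 (39 / 1000) (12332 * (1 / 1000)) (by norm_num) (by norm_num) eval_f0 f0_big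
      ((f0_a x hx3).trans (le_of_eq (by norm_num))) ((f0_b x hx3).trans (le_of_eq (by norm_num)))
      (by norm_num [cc])
  · exact key f1 (358 / 10000) (12332 * (12 / 10000)) (by norm_num) (by norm_num) eval_f1 f1_big
      ((f1_a x hx3).trans (le_of_eq (by norm_num))) ((f1_b x hx3).trans (le_of_eq (by norm_num)))
      (by norm_num [cc])
  · exact key f2 (327 / 1000) (12332 * (13 / 1000)) (by norm_num) (by norm_num) eval_f2 f2_big
      ((f2_a x hx3).trans (le_of_eq (by norm_num))) ((f2_b x hx3).trans (le_of_eq (by norm_num)))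
      (by norm_num [cc])
  · exact key f3 (1 / 2) (12332 * (11 / 100)) (by norm_num) (by norm_num) eval_f3 f3_big
      ((f3_a x hx3).trans (le_of_eq (by norm_num))) ((f3_b x hx3).trans (le_of_eq (by norm_num)))
      (by norm_num [cc])
  · exact key f4 (559 / 100) (12332 * (81 / 100)) (by norm_num) (by norm_num) eval_f4 f4_big
      ((f4_a x hx3).trans (le_of_eq (by norm_num))) ((f4_b x hx3).trans (le_of_eq (by norm_num)))
      (by norm_num [cc])
  · exact key f5 (875 / 100) (12332 * (645 / 100)) (by norm_num) (by norm_num) eval_f5 f5_big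
      ((f5_a x hx3).trans (le_of_eq (by norm_num))) ((f5_b x hx3).trans (le_of_eq (by norm_num)))
      (by norm_num [cc])
  · exact key f6 (1374 / 10) (12332 * (546 / 10)) (by norm_num) (by norm_num) eval_f6 f6_big
      ((f6_a x hx3).trans (le_of_eq (by norm_num))) ((f6_b x hx3).trans (le_of_eq (by norm_num)))
      (by norm_num [cc])

/-! ### Error terms -/

lemma err2 (x d : ℝ) (hx : 3 ≤ x) (hd : 0 ≤ d) (hdx : d ≤ 1 / 10000000000 * x ^ 3) :
    Q2 (cc 0 * x ^ (0 + 5) + nn 0 * x ^ (0 + 2) * d) (cc 1 * x ^ (1 + 5) + nn 1 * x ^ (1 + 2) * d)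
      (cc 2 * x ^ (2 + 5) + nn 2 * x ^ (2 + 2) * d) -
    Q2 (cc 0 * x ^ (0 + 5)) (cc 1 * x ^ (1 + 5)) (cc 2 * x ^ (2 + 5)) ≤ 9330 * x ^ 9 * d := by
  have e : Q2 (cc 0 * x ^ (0 + 5) + nn 0 * x ^ (0 + 2) * d) (cc 1 * x ^ (1 + 5) + nn 1 * x ^ (1 + 2) * d)
      (cc 2 * x ^ (2 + 5) + nn 2 * x ^ (2 + 2) * d) -
    Q2 (cc 0 * x ^ (0 + 5)) (cc 1 * x ^ (1 + 5)) (cc 2 * x ^ (2 + 5)) =
    x ^ 6 * (23322411 / 2500 * (x ^ 3 * d) + 1874923848 / 25 * (d * d)) := by
    simp only [Q2, cc, nn]; ring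
  rw [e]
  have hx0 : 0 < x := by linarith
  have h1 : d * d ≤ (1 / 10000000000 * x ^ 3) * d := mul_le_mul_of_nonneg_right hdx hd
  have hpos : 0 ≤ x ^ 3 * d := by positivity
  calc x ^ 6 * (23322411 / 2500 * (x ^ 3 * d) + 1874923848 / 25 * (d * d))
      ≤ x ^ 6 * (9330 * (x ^ 3 * d)) := by
        apply mul_le_mul_of_nonneg_left _ (by positivity)
        linarith
    _ = _ := by ring

lemma err3 (x d : ℝ) (hx : 3 ≤ x) (hd : 0 ≤ d) (hdx : d ≤ 1 / 10000000000 * x ^ 3) :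
    Q3 (cc 0 * x ^ (0 + 5) + nn 0 * x ^ (0 + 2) * d) (cc 1 * x ^ (1 + 5) + nn 1 * x ^ (1 + 2) * d)
      (cc 2 * x ^ (2 + 5) + nn 2 * x ^ (2 + 2) * d) (cc 3 * x ^ (3 + 5) + nn 3 * x ^ (3 + 2) * d)
      (cc 4 * x ^ (4 + 5) + nn 4 * x ^ (4 + 2) * d) -
    Q3 (cc 0 * x ^ (0 + 5)) (cc 1 * x ^ (1 + 5)) (cc 2 * x ^ (2 + 5)) (cc 3 * x ^ (3 + 5))
      (cc 4 * x ^ (4 + 5)) ≤ 5020000 * x ^ 18 * d := by
  have e : Q3 (cc 0 * x ^ (0 + 5) + nn 0 * x ^ (0 + 2) * d) (cc 1 * x ^ (1 + 5) + nn 1 * x ^ (1 + 2) * d)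
      (cc 2 * x ^ (2 + 5) + nn 2 * x ^ (2 + 2) * d) (cc 3 * x ^ (3 + 5) + nn 3 * x ^ (3 + 2) * d)
      (cc 4 * x ^ (4 + 5) + nn 4 * x ^ (4 + 2) * d) -
    Q3 (cc 0 * x ^ (0 + 5)) (cc 1 * x ^ (1 + 5)) (cc 2 * x ^ (2 + 5)) (cc 3 * x ^ (3 + 5))
      (cc 4 * x ^ (4 + 5)) =
    x ^ 12 * (12530888699301 / 2500000 * (x ^ 6 * d) + 16876523292292944 / 3125 * (x ^ 3 * d * d)
      + 8035061567540861952 / 125 * (d * d * d)) := by
    simp only [Q3, cc, nn]; ring
  rw [e]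
  have hx0 : 0 < x := by linarith
  have hpos : 0 ≤ x ^ 6 * d := by positivity
  have h1 : x ^ 3 * d * d ≤ 1 / 10000000000 * (x ^ 6 * d) := by
    calc x ^ 3 * d * d ≤ x ^ 3 * d * (1 / 10000000000 * x ^ 3) := by gcongr
      _ = _ := by ring
  have h2 : d * d * d ≤ 1 / 10000000000 * (1 / 10000000000 * (x ^ 6 * d)) := by
    calc d * d * d ≤ (1 / 10000000000 * x ^ 3) * (1 / 10000000000 * x ^ 3) * d := by gcongr
      _ = _ := by ring
  calc _ ≤ x ^ 12 * (5020000 * (x ^ 6 * d)) := by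
        apply mul_le_mul_of_nonneg_left _ (by positivity)
        linarith
    _ = _ := by ring

lemma err4 (x d : ℝ) (hx : 3 ≤ x) (hd : 0 ≤ d) (hdx : d ≤ 1 / 10000000000 * x ^ 3) :
    Q4 (cc 0 * x ^ (0 + 5) + nn 0 * x ^ (0 + 2) * d) (cc 1 * x ^ (1 + 5) + nn 1 * x ^ (1 + 2) * d)
      (cc 2 * x ^ (2 + 5) + nn 2 * x ^ (2 + 2) * d) (cc 3 * x ^ (3 + 5) + nn 3 * x ^ (3 + 2) * d)
      (cc 4 * x ^ (4 + 5) + nn 4 * x ^ (4 + 2) * d) (cc 5 * x ^ (5 + 5) + nn 5 * x ^ (5 + 2) * d)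
      (cc 6 * x ^ (6 + 5) + nn 6 * x ^ (6 + 2) * d) -
    Q4 (cc 0 * x ^ (0 + 5)) (cc 1 * x ^ (1 + 5)) (cc 2 * x ^ (2 + 5)) (cc 3 * x ^ (3 + 5))
      (cc 4 * x ^ (4 + 5)) (cc 5 * x ^ (5 + 5)) (cc 6 * x ^ (6 + 5)) ≤ 76500000000 * x ^ 29 * d := by
  have e : Q4 (cc 0 * x ^ (0 + 5) + nn 0 * x ^ (0 + 2) * d) (cc 1 * x ^ (1 + 5) + nn 1 * x ^ (1 + 2) * d)
      (cc 2 * x ^ (2 + 5) + nn 2 * x ^ (2 + 2) * d) (cc 3 * x ^ (3 + 5) + nn 3 * x ^ (3 + 2) * d)
      (cc 4 * x ^ (4 + 5) + nn 4 * x ^ (4 + 2) * d) (cc 5 * x ^ (5 + 5) + nn 5 * x ^ (5 + 2) * d)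
      (cc 6 * x ^ (6 + 5) + nn 6 * x ^ (6 + 2) * d) -
    Q4 (cc 0 * x ^ (0 + 5)) (cc 1 * x ^ (1 + 5)) (cc 2 * x ^ (2 + 5)) (cc 3 * x ^ (3 + 5))
      (cc 4 * x ^ (4 + 5)) (cc 5 * x ^ (5 + 5)) (cc 6 * x ^ (6 + 5)) =
    x ^ 20 * (29725141739142087 / 390625 * (x ^ 9 * d)
      + 1491037569331263819347328 / 390625 * (x ^ 6 * d * d)
      + 93808348481893068867948281856 / 15625 * (x ^ 3 * d * d * d)
      + 59502953462422216306626127724544 / 625 * (d * d * d * d)) := by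
    simp only [Q4, cc, nn]; ring
  rw [e]
  have hx0 : 0 < x := by linarith
  have hpos : 0 ≤ x ^ 9 * d := by positivity
  have h1 : x ^ 6 * d * d ≤ 1 / 10000000000 * (x ^ 9 * d) := by
    calc x ^ 6 * d * d ≤ x ^ 6 * d * (1 / 10000000000 * x ^ 3) := by gcongr
      _ = _ := by ring
  have h2 : x ^ 3 * d * d * d ≤ 1 / 10000000000 * (1 / 10000000000 * (x ^ 9 * d)) := by
    calc x ^ 3 * d * d * d ≤ x ^ 3 * (1 / 10000000000 * x ^ 3) * (1 / 10000000000 * x ^ 3) * d := by gcongr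
      _ = _ := by ring
  have h3 : d * d * d * d ≤ 1 / 10000000000 * (1 / 10000000000 * (1 / 10000000000 * (x ^ 9 * d))) := by
    calc d * d * d * d ≤ (1 / 10000000000 * x ^ 3) * (1 / 10000000000 * x ^ 3) * (1 / 10000000000 * x ^ 3) * d := by gcongr
      _ = _ := by ring
  calc _ ≤ x ^ 20 * (76500000000 * (x ^ 9 * d)) := by
        apply mul_le_mul_of_nonneg_left _ (by positivity)
        linarith
    _ = _ := by ring

/-! ### Final inequalities -/

lemma fin2 (t : ℝ) (ht : 0 ≤ t) : - B21 (314 / 100 + t) < 12332 * EE t * (B20 (314 / 100 + t) - 1) := by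
  have : 0 < 12332 * EE t * (B20 (314 / 100 + t) - 1) + B21 (314 / 100 + t) := by
    unfold EE B20 B21; ring_nf; positivity
  linarith

lemma fin4 (t : ℝ) (ht : 0 ≤ t) : - B41 (314 / 100 + t) - (1 / 12332) ^ 2 * B43 (314 / 100 + t)
    < 12332 * EE t * (B40 (314 / 100 + t) - 160) := by
  have : 0 < 12332 * EE t * (B40 (314 / 100 + t) - 160) + B41 (314 / 100 + t)
      + (1 / 12332) ^ 2 * B43 (314 / 100 + t) := by
    unfold EE B40 B41 B43; ring_nf; positivity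
  linarith

end Pool.Agent.R571.PF
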