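import Mathlib

/-!
# Perturbation of Hankel determinants of order at most four
-/

namespace Pool.Agent.R571.PF

/-- `a` is within `s - m` of `b`, and `|b| ≤ m`. -/
def P (a b m s : ℝ) : Prop := |b| ≤ m ∧ |a - b| ≤ s - m

lemma P.mul {a b m s a' b' m' s' : ℝ} (h : P a b m s) (h' : P a' b' m' s') :
    P (a * a') (b * b') (m * m') (s * s') := by
  obtain ⟨h1, h2⟩ := h
  obtain ⟨h3, h4⟩ := h'
  have hm : 0 ≤ m := (abs_nonneg _).trans h1
  have hm' : 0 ≤ m' := (abs_nonneg _).trans h3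
  have ha : |a| ≤ s := by
    calc |a| = |(a - b) + b| := by ring_nf
      _ ≤ |a - b| + |b| := abs_add_le _ _
      _ ≤ s := by linarith
  have hs : 0 ≤ s := (abs_nonneg _).trans ha
  refine ⟨by rw [abs_mul]; exact mul_le_mul h1 h3 (abs_nonneg _) hm, ?_⟩
  calc |a * a' - b * b'| = |a * (a' - b') + (a - b) * b'| := by ring_nf
    _ ≤ |a * (a' - b')| + |(a - b) * b'| := abs_add_le _ _
    _ = |a| * |a' - b'| + |a - b| * |b'| := by rw [abs_mul, abs_mul]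
    _ ≤ s * (s' - m') + (s - m) * m' :=
        add_le_add (mul_le_mul ha h4 (abs_nonneg _) hs)
          (mul_le_mul h2 h3 (abs_nonneg _) ((abs_nonneg _).trans h2))
    _ = s * s' - m * m' := by ring

lemma P.add {a b m s a' b' m' s' : ℝ} (h : P a b m s) (h' : P a' b' m' s') :
    P (a + a') (b + b') (m + m') (s + s') := by
  obtain ⟨h1, h2⟩ := h
  obtain ⟨h3, h4⟩ := h'
  refine ⟨(abs_add_le _ _).trans (add_le_add h1 h3), ?_⟩
  calc |a + a' - (b + b')| = |(a - b) + (a' - b')| := by ring_nf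
    _ ≤ |a - b| + |a' - b'| := abs_add_le _ _
    _ ≤ _ := by linarith

lemma P.sub {a b m s a' b' m' s' : ℝ} (h : P a b m s) (h' : P a' b' m' s') :
    P (a - a') (b - b') (m + m') (s + s') := by
  obtain ⟨h1, h2⟩ := h
  obtain ⟨h3, h4⟩ := h'
  refine ⟨(abs_sub _ _).trans (add_le_add h1 h3), ?_⟩
  calc |a - a' - (b - b')| = |(a - b) - (a' - b')| := by ring_nf
    _ ≤ |a - b| + |a' - b'| := abs_sub _ _
    _ ≤ _ := by linarith

/-- Hankel determinant of order two. -/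
def H2 (a0 a1 a2 : ℝ) : ℝ := a0 * a2 - a1 * a1
/-- Hankel permanent of order two. -/
def Q2 (a0 a1 a2 : ℝ) : ℝ := a0 * a2 + a1 * a1
/-- Hankel determinant of order three. -/
def H3 (a0 a1 a2 a3 a4 : ℝ) : ℝ :=
  a0 * (a2 * a4 - a3 * a3) - a1 * (a1 * a4 - a2 * a3) + a2 * (a1 * a3 - a2 * a2)
/-- Hankel permanent of order three. -/
def Q3 (a0 a1 a2 a3 a4 : ℝ) : ℝ :=
  a0 * (a2 * a4 + a3 * a3) + a1 * (a1 * a4 + a2 * a3) + a2 * (a1 * a3 + a2 * a2)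
/-- Hankel determinant of order four (Laplace expansion along the first two rows). -/
def H4 (a0 a1 a2 a3 a4 a5 a6 : ℝ) : ℝ :=
  (a0 * a2 - a1 * a1) * (a4 * a6 - a5 * a5) - (a0 * a3 - a2 * a1) * (a3 * a6 - a5 * a4)
  + (a0 * a4 - a3 * a1) * (a3 * a5 - a4 * a4) + (a1 * a3 - a2 * a2) * (a2 * a6 - a5 * a3)
  - (a1 * a4 - a3 * a2) * (a2 * a5 - a4 * a3) + (a2 * a4 - a3 * a3) * (a2 * a4 - a3 * a3)
/-- Hankel permanent of order four. -/
def Q4 (a0 a1 a2 a3 a4 a5 a6 : ℝ) : ℝ :=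
  (a0 * a2 + a1 * a1) * (a4 * a6 + a5 * a5) + (a0 * a3 + a2 * a1) * (a3 * a6 + a5 * a4)
  + (a0 * a4 + a3 * a1) * (a3 * a5 + a4 * a4) + (a1 * a3 + a2 * a2) * (a2 * a6 + a5 * a3)
  + (a1 * a4 + a3 * a2) * (a2 * a5 + a4 * a3) + (a2 * a4 + a3 * a3) * (a2 * a4 + a3 * a3)

lemma P2 {a b m s : ℕ → ℝ} (h : ∀ k, k < 3 → P (a k) (b k) (m k) (s k)) :
    P (H2 (a 0) (a 1) (a 2)) (H2 (b 0) (b 1) (b 2)) (Q2 (m 0) (m 1) (m 2)) (Q2 (s 0) (s 1) (s 2)) := by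
  have h0 := h 0 (by norm_num)
  have h1 := h 1 (by norm_num)
  have h2 := h 2 (by norm_num)
  exact (h0.mul h2).sub (h1.mul h1)

lemma P3 {a b m s : ℕ → ℝ} (h : ∀ k, k < 5 → P (a k) (b k) (m k) (s k)) :
    P (H3 (a 0) (a 1) (a 2) (a 3) (a 4)) (H3 (b 0) (b 1) (b 2) (b 3) (b 4))
      (Q3 (m 0) (m 1) (m 2) (m 3) (m 4)) (Q3 (s 0) (s 1) (s 2) (s 3) (s 4)) := by
  have h0 := h 0 (by norm_num)
  have h1 := h 1 (by norm_num)
  have h2 := h 2 (by norm_num)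
  have h3 := h 3 (by norm_num)
  have h4 := h 4 (by norm_num)
  exact ((h0.mul ((h2.mul h4).sub (h3.mul h3))).sub (h1.mul ((h1.mul h4).sub (h2.mul h3)))).add
    (h2.mul ((h1.mul h3).sub (h2.mul h2)))

lemma P4 {a b m s : ℕ → ℝ} (h : ∀ k, k < 7 → P (a k) (b k) (m k) (s k)) :
    P (H4 (a 0) (a 1) (a 2) (a 3) (a 4) (a 5) (a 6)) (H4 (b 0) (b 1) (b 2) (b 3) (b 4) (b 5) (b 6))
      (Q4 (m 0) (m 1) (m 2) (m 3) (m 4) (m 5) (m 6)) (Q4 (s 0) (s 1) (s 2) (s 3) (s 4) (s 5) (s 6)) := by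
  have h0 := h 0 (by norm_num)
  have h1 := h 1 (by norm_num)
  have h2 := h 2 (by norm_num)
  have h3 := h 3 (by norm_num)
  have h4 := h 4 (by norm_num)
  have h5 := h 5 (by norm_num)
  have h6 := h 6 (by norm_num)
  exact ((((((h0.mul h2).sub (h1.mul h1)).mul ((h4.mul h6).sub (h5.mul h5))).sub
    (((h0.mul h3).sub (h2.mul h1)).mul ((h3.mul h6).sub (h5.mul h4)))).add
    (((h0.mul h4).sub (h3.mul h1)).mul ((h3.mul h5).sub (h4.mul h4)))).add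
    (((h1.mul h3).sub (h2.mul h2)).mul ((h2.mul h6).sub (h5.mul h3)))).sub
    (((h1.mul h4).sub (h3.mul h2)).mul ((h2.mul h5).sub (h4.mul h3))) |>.add
    (((h2.mul h4).sub (h3.mul h3)).mul ((h2.mul h4).sub (h3.mul h3)))

/-! ### Link with matrix determinants -/

lemma det1 (D : ℕ → ℝ) : (Matrix.of fun i j : Fin 1 => (-1 : ℝ) ^ j.1 * D (i.1 + j.1)).det = D 0 := by
  simp

lemma det2 (D : ℕ → ℝ) : (Matrix.of fun i j : Fin 2 => (-1 : ℝ) ^ j.1 * D (i.1 + j.1)).det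
    = - H2 (D 0) (D 1) (D 2) := by
  rw [Matrix.det_fin_two]
  simp [H2]
  ring

lemma det3 (D : ℕ → ℝ) : (Matrix.of fun i j : Fin 3 => (-1 : ℝ) ^ j.1 * D (i.1 + j.1)).det
    = - H3 (D 0) (D 1) (D 2) (D 3) (D 4) := by
  rw [Matrix.det_fin_three]
  simp [H3]
  ring

lemma det4 (D : ℕ → ℝ) : (Matrix.of fun i j : Fin 4 => (-1 : ℝ) ^ j.1 * D (i.1 + j.1)).det
    = H4 (D 0) (D 1) (D 2) (D 3) (D 4) (D 5) (D 6) := by
  rw [Matrix.det_succ_row_zero]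
  simp only [Fin.sum_univ_four, Matrix.det_fin_three, Matrix.submatrix_apply, Matrix.of_apply]
  simp [Fin.succAbove, H4]
  ring

end Pool.Agent.R571.PF
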