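import Pool.Agent.R571.PF.Tail
import Pool.Agent.R571.PF.Pert

/-!
# Explicit polynomials and elementary bounds
-/

open Finset Polynomial Real
open scoped BigOperators ContDiff

namespace Pool.Agent.R571.PF

/-- Explicit form of the `0`-th derivative polynomial. -/
def f0 (z : ℝ) : ℝ := -3 * z + 2 * z ^ 2
/-- Explicit form of the `1`-th derivative polynomial. -/
def f1 (z : ℝ) : ℝ := -15 * z + 30 * z ^ 2 - 8 * z ^ 3
/-- Explicit form of the `2`-th derivative polynomial. -/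
def f2 (z : ℝ) : ℝ := -75 * z + 330 * z ^ 2 - 224 * z ^ 3 + 32 * z ^ 4
/-- Explicit form of the `3`-th derivative polynomial. -/
def f3 (z : ℝ) : ℝ := -375 * z + 3270 * z ^ 2 - 4232 * z ^ 3 + 1440 * z ^ 4 - 128 * z ^ 5
/-- Explicit form of the `4`-th derivative polynomial. -/
def f4 (z : ℝ) : ℝ := -1875 * z + 30930 * z ^ 2 - 68096 * z ^ 3 + 41408 * z ^ 4 - 8448 * z ^ 5 + 512 * z ^ 6
/-- Explicit form of the `5`-th derivative polynomial. -/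
def f5 (z : ℝ) : ℝ := -9375 * z + 285870 * z ^ 2 - 1008968 * z ^ 3 + 976320 * z ^ 4 - 343040 * z ^ 5 + 46592 * z ^ 6 - 2048 * z ^ 7
/-- Explicit form of the `6`-th derivative polynomial. -/
def f6 (z : ℝ) : ℝ := -46875 * z + 2610330 * z ^ 2 - 14260064 * z ^ 3 + 20633312 * z ^ 4 - 11109120 * z ^ 5 + 2536960 * z ^ 6 - 245760 * z ^ 7 + 8192 * z ^ 8
/-- The polynomial `T^1 p0`. -/
noncomputable def q1 : ℝ[X] := -15 * X + 30 * X ^ 2 - 8 * X ^ 3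
lemma T_q1 : T p0 = q1 := by
  have e4 : (C 4 : ℝ[X]) = 4 := rfl
  have e2 : (C 2 : ℝ[X]) = 2 := rfl
  have e3 : (C 3 : ℝ[X]) = 3 := rfl
  simp only [T, p0, q1, derivative_add, derivative_sub, derivative_mul, derivative_neg, derivative_ofNat, derivative_X,
    derivative_X_pow, derivative_C, e4, e2, e3]
  simp
  have e5 : (C 5 : ℝ[X]) = 5 := rfl
  have e6 : (C 6 : ℝ[X]) = 6 := rfl
  have e7 : (C 7 : ℝ[X]) = 7 := rfl
  have e8 : (C 8 : ℝ[X]) = 8 := rfl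
  try simp only [e2, e3, e4, e5, e6, e7, e8]
  ring

/-- The polynomial `T^2 p0`. -/
noncomputable def q2 : ℝ[X] := -75 * X + 330 * X ^ 2 - 224 * X ^ 3 + 32 * X ^ 4
lemma T_q2 : T q1 = q2 := by
  have e4 : (C 4 : ℝ[X]) = 4 := rfl
  have e2 : (C 2 : ℝ[X]) = 2 := rfl
  have e3 : (C 3 : ℝ[X]) = 3 := rfl
  simp only [T, q1, q2, derivative_add, derivative_sub, derivative_mul, derivative_neg, derivative_ofNat, derivative_X,
    derivative_X_pow, derivative_C, e4, e2, e3]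
  simp
  have e5 : (C 5 : ℝ[X]) = 5 := rfl
  have e6 : (C 6 : ℝ[X]) = 6 := rfl
  have e7 : (C 7 : ℝ[X]) = 7 := rfl
  have e8 : (C 8 : ℝ[X]) = 8 := rfl
  try simp only [e2, e3, e4, e5, e6, e7, e8]
  ring

/-- The polynomial `T^3 p0`. -/
noncomputable def q3 : ℝ[X] := -375 * X + 3270 * X ^ 2 - 4232 * X ^ 3 + 1440 * X ^ 4 - 128 * X ^ 5
lemma T_q3 : T q2 = q3 := by
  have e4 : (C 4 : ℝ[X]) = 4 := rfl
  have e2 : (C 2 : ℝ[X]) = 2 := rfl
  have e3 : (C 3 : ℝ[X]) = 3 := rfl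
  simp only [T, q2, q3, derivative_add, derivative_sub, derivative_mul, derivative_neg, derivative_ofNat, derivative_X,
    derivative_X_pow, derivative_C, e4, e2, e3]
  simp
  have e5 : (C 5 : ℝ[X]) = 5 := rfl
  have e6 : (C 6 : ℝ[X]) = 6 := rfl
  have e7 : (C 7 : ℝ[X]) = 7 := rfl
  have e8 : (C 8 : ℝ[X]) = 8 := rfl
  try simp only [e2, e3, e4, e5, e6, e7, e8]
  ring

/-- The polynomial `T^4 p0`. -/
noncomputable def q4 : ℝ[X] := -1875 * X + 30930 * X ^ 2 - 68096 * X ^ 3 + 41408 * X ^ 4 - 8448 * X ^ 5 + 512 * X ^ 6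
lemma T_q4 : T q3 = q4 := by
  have e4 : (C 4 : ℝ[X]) = 4 := rfl
  have e2 : (C 2 : ℝ[X]) = 2 := rfl
  have e3 : (C 3 : ℝ[X]) = 3 := rfl
  simp only [T, q3, q4, derivative_add, derivative_sub, derivative_mul, derivative_neg, derivative_ofNat, derivative_X,
    derivative_X_pow, derivative_C, e4, e2, e3]
  simp
  have e5 : (C 5 : ℝ[X]) = 5 := rfl
  have e6 : (C 6 : ℝ[X]) = 6 := rfl
  have e7 : (C 7 : ℝ[X]) = 7 := rfl
  have e8 : (C 8 : ℝ[X]) = 8 := rfl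
  try simp only [e2, e3, e4, e5, e6, e7, e8]
  ring

/-- The polynomial `T^5 p0`. -/
noncomputable def q5 : ℝ[X] := -9375 * X + 285870 * X ^ 2 - 1008968 * X ^ 3 + 976320 * X ^ 4 - 343040 * X ^ 5 + 46592 * X ^ 6 - 2048 * X ^ 7
lemma T_q5 : T q4 = q5 := by
  have e4 : (C 4 : ℝ[X]) = 4 := rfl
  have e2 : (C 2 : ℝ[X]) = 2 := rfl
  have e3 : (C 3 : ℝ[X]) = 3 := rfl
  simp only [T, q4, q5, derivative_add, derivative_sub, derivative_mul, derivative_neg, derivative_ofNat, derivative_X,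
    derivative_X_pow, derivative_C, e4, e2, e3]
  simp
  have e5 : (C 5 : ℝ[X]) = 5 := rfl
  have e6 : (C 6 : ℝ[X]) = 6 := rfl
  have e7 : (C 7 : ℝ[X]) = 7 := rfl
  have e8 : (C 8 : ℝ[X]) = 8 := rfl
  try simp only [e2, e3, e4, e5, e6, e7, e8]
  ring

/-- The polynomial `T^6 p0`. -/
noncomputable def q6 : ℝ[X] := -46875 * X + 2610330 * X ^ 2 - 14260064 * X ^ 3 + 20633312 * X ^ 4 - 11109120 * X ^ 5 + 2536960 * X ^ 6 - 245760 * X ^ 7 + 8192 * X ^ 8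
lemma T_q6 : T q5 = q6 := by
  have e4 : (C 4 : ℝ[X]) = 4 := rfl
  have e2 : (C 2 : ℝ[X]) = 2 := rfl
  have e3 : (C 3 : ℝ[X]) = 3 := rfl
  simp only [T, q5, q6, derivative_add, derivative_sub, derivative_mul, derivative_neg, derivative_ofNat, derivative_X,
    derivative_X_pow, derivative_C, e4, e2, e3]
  simp
  have e5 : (C 5 : ℝ[X]) = 5 := rfl
  have e6 : (C 6 : ℝ[X]) = 6 := rfl
  have e7 : (C 7 : ℝ[X]) = 7 := rfl
  have e8 : (C 8 : ℝ[X]) = 8 := rfl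
  try simp only [e2, e3, e4, e5, e6, e7, e8]
  ring

lemma eval_f0 (z : ℝ) : (T^[0] p0).eval z = f0 z := by
  simp only [Function.iterate_zero, id, p0, f0, eval_sub, eval_mul, eval_C, eval_pow, eval_X]
  ring

lemma eval_f1 (z : ℝ) : (T^[1] p0).eval z = f1 z := by
  have h : T^[1] p0 = q1 := by
    simp only [Function.iterate_succ_apply', Function.iterate_zero, id, T_q1]
  rw [h]
  simp only [q1, f1, eval_sub, eval_add, eval_neg, eval_mul, eval_ofNat, eval_pow, eval_X]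

lemma eval_f2 (z : ℝ) : (T^[2] p0).eval z = f2 z := by
  have h : T^[2] p0 = q2 := by
    simp only [Function.iterate_succ_apply', Function.iterate_zero, id, T_q1, T_q2]
  rw [h]
  simp only [q2, f2, eval_sub, eval_add, eval_neg, eval_mul, eval_ofNat, eval_pow, eval_X]

lemma eval_f3 (z : ℝ) : (T^[3] p0).eval z = f3 z := by
  have h : T^[3] p0 = q3 := by
    simp only [Function.iterate_succ_apply', Function.iterate_zero, id, T_q1, T_q2, T_q3]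
  rw [h]
  simp only [q3, f3, eval_sub, eval_add, eval_neg, eval_mul, eval_ofNat, eval_pow, eval_X]

lemma eval_f4 (z : ℝ) : (T^[4] p0).eval z = f4 z := by
  have h : T^[4] p0 = q4 := by
    simp only [Function.iterate_succ_apply', Function.iterate_zero, id, T_q1, T_q2, T_q3, T_q4]
  rw [h]
  simp only [q4, f4, eval_sub, eval_add, eval_neg, eval_mul, eval_ofNat, eval_pow, eval_X]

lemma eval_f5 (z : ℝ) : (T^[5] p0).eval z = f5 z := by
  have h : T^[5] p0 = q5 := by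
    simp only [Function.iterate_succ_apply', Function.iterate_zero, id, T_q1, T_q2, T_q3, T_q4, T_q5]
  rw [h]
  simp only [q5, f5, eval_sub, eval_add, eval_neg, eval_mul, eval_ofNat, eval_pow, eval_X]

lemma eval_f6 (z : ℝ) : (T^[6] p0).eval z = f6 z := by
  have h : T^[6] p0 = q6 := by
    simp only [Function.iterate_succ_apply', Function.iterate_zero, id, T_q1, T_q2, T_q3, T_q4, T_q5, T_q6]
  rw [h]
  simp only [q6, f6, eval_sub, eval_add, eval_neg, eval_mul, eval_ofNat, eval_pow, eval_X]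

lemma f0_big (z : ℝ) (hz : 27 ≤ z) : |f0 z| ≤ 2 * 4 ^ 0 * z ^ 2 := by
  obtain ⟨t, ht, rfl⟩ : ∃ t : ℝ, 0 ≤ t ∧ z = 27 + t := ⟨z - 27, by linarith, by ring⟩
  rw [abs_le]
  constructor
  · have : 0 ≤ f0 (27 + t) + 2 * 4 ^ 0 * (27 + t) ^ 2 := by
      unfold f0; ring_nf; positivity
    linarith
  · have : 0 ≤ 2 * 4 ^ 0 * (27 + t) ^ 2 - f0 (27 + t) := by
      unfold f0; ring_nf; positivity
    linarith

lemma f1_big (z : ℝ) (hz : 27 ≤ z) : |f1 z| ≤ 2 * 4 ^ 1 * z ^ 3 := by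
  obtain ⟨t, ht, rfl⟩ : ∃ t : ℝ, 0 ≤ t ∧ z = 27 + t := ⟨z - 27, by linarith, by ring⟩
  rw [abs_le]
  constructor
  · have : 0 ≤ f1 (27 + t) + 2 * 4 ^ 1 * (27 + t) ^ 3 := by
      unfold f1; ring_nf; positivity
    linarith
  · have : 0 ≤ 2 * 4 ^ 1 * (27 + t) ^ 3 - f1 (27 + t) := by
      unfold f1; ring_nf; positivity
    linarith

lemma f2_big (z : ℝ) (hz : 27 ≤ z) : |f2 z| ≤ 2 * 4 ^ 2 * z ^ 4 := by
  obtain ⟨t, ht, rfl⟩ : ∃ t : ℝ, 0 ≤ t ∧ z = 27 + t := ⟨z - 27, by linarith, by ring⟩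
  rw [abs_le]
  constructor
  · have : 0 ≤ f2 (27 + t) + 2 * 4 ^ 2 * (27 + t) ^ 4 := by
      unfold f2; ring_nf; positivity
    linarith
  · have : 0 ≤ 2 * 4 ^ 2 * (27 + t) ^ 4 - f2 (27 + t) := by
      unfold f2; ring_nf; positivity
    linarith

lemma f3_big (z : ℝ) (hz : 27 ≤ z) : |f3 z| ≤ 2 * 4 ^ 3 * z ^ 5 := by
  obtain ⟨t, ht, rfl⟩ : ∃ t : ℝ, 0 ≤ t ∧ z = 27 + t := ⟨z - 27, by linarith, by ring⟩
  rw [abs_le]
  constructor
  · have : 0 ≤ f3 (27 + t) + 2 * 4 ^ 3 * (27 + t) ^ 5 := by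
      unfold f3; ring_nf; positivity
    linarith
  · have : 0 ≤ 2 * 4 ^ 3 * (27 + t) ^ 5 - f3 (27 + t) := by
      unfold f3; ring_nf; positivity
    linarith

lemma f4_big (z : ℝ) (hz : 27 ≤ z) : |f4 z| ≤ 2 * 4 ^ 4 * z ^ 6 := by
  obtain ⟨t, ht, rfl⟩ : ∃ t : ℝ, 0 ≤ t ∧ z = 27 + t := ⟨z - 27, by linarith, by ring⟩
  rw [abs_le]
  constructor
  · have : 0 ≤ f4 (27 + t) + 2 * 4 ^ 4 * (27 + t) ^ 6 := by
      unfold f4; ring_nf; positivity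
    linarith
  · have : 0 ≤ 2 * 4 ^ 4 * (27 + t) ^ 6 - f4 (27 + t) := by
      unfold f4; ring_nf; positivity
    linarith

lemma f5_big (z : ℝ) (hz : 27 ≤ z) : |f5 z| ≤ 2 * 4 ^ 5 * z ^ 7 := by
  obtain ⟨t, ht, rfl⟩ : ∃ t : ℝ, 0 ≤ t ∧ z = 27 + t := ⟨z - 27, by linarith, by ring⟩
  rw [abs_le]
  constructor
  · have : 0 ≤ f5 (27 + t) + 2 * 4 ^ 5 * (27 + t) ^ 7 := by
      unfold f5; ring_nf; positivity
    linarith
  · have : 0 ≤ 2 * 4 ^ 5 * (27 + t) ^ 7 - f5 (27 + t) := by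
      unfold f5; ring_nf; positivity
    linarith

lemma f6_big (z : ℝ) (hz : 27 ≤ z) : |f6 z| ≤ 2 * 4 ^ 6 * z ^ 8 := by
  obtain ⟨t, ht, rfl⟩ : ∃ t : ℝ, 0 ≤ t ∧ z = 27 + t := ⟨z - 27, by linarith, by ring⟩
  rw [abs_le]
  constructor
  · have : 0 ≤ f6 (27 + t) + 2 * 4 ^ 6 * (27 + t) ^ 8 := by
      unfold f6; ring_nf; positivity
    linarith
  · have : 0 ≤ 2 * 4 ^ 6 * (27 + t) ^ 8 - f6 (27 + t) := by
      unfold f6; ring_nf; positivity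
    linarith

lemma f0_a (x : ℝ) (hx : 3 ≤ x) : |f0 x| ≤ (39 / 1000) * x ^ 5 := by
  obtain ⟨t, ht, rfl⟩ : ∃ t : ℝ, 0 ≤ t ∧ x = 3 + t := ⟨x - 3, by linarith, by ring⟩
  rw [abs_le]
  constructor
  · have : 0 ≤ f0 (3 + t) + (39 / 1000) * (3 + t) ^ 5 := by
      unfold f0; ring_nf; positivity
    linarith
  · have : 0 ≤ (39 / 1000) * (3 + t) ^ 5 - f0 (3 + t) := by
      unfold f0; ring_nf; positivity
    linarith

lemma f0_b (x : ℝ) (hx : 3 ≤ x) : |f0 (4 * x)| ≤ (3083 / 250) * x ^ 5 := by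
  obtain ⟨t, ht, rfl⟩ : ∃ t : ℝ, 0 ≤ t ∧ x = 3 + t := ⟨x - 3, by linarith, by ring⟩
  rw [abs_le]
  constructor
  · have : 0 ≤ f0 (4 * (3 + t)) + (3083 / 250) * (3 + t) ^ 5 := by
      unfold f0; ring_nf; positivity
    linarith
  · have : 0 ≤ (3083 / 250) * (3 + t) ^ 5 - f0 (4 * (3 + t)) := by
      unfold f0; ring_nf; positivity
    linarith

lemma f1_a (x : ℝ) (hx : 3 ≤ x) : |f1 x| ≤ (179 / 5000) * x ^ 6 := by
  obtain ⟨t, ht, rfl⟩ : ∃ t : ℝ, 0 ≤ t ∧ x = 3 + t := ⟨x - 3, by linarith, by ring⟩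
  rw [abs_le]
  constructor
  · have : 0 ≤ f1 (3 + t) + (179 / 5000) * (3 + t) ^ 6 := by
      unfold f1; ring_nf; positivity
    linarith
  · have : 0 ≤ (179 / 5000) * (3 + t) ^ 6 - f1 (3 + t) := by
      unfold f1; ring_nf; positivity
    linarith

lemma f1_b (x : ℝ) (hx : 3 ≤ x) : |f1 (4 * x)| ≤ (9249 / 625) * x ^ 6 := by
  obtain ⟨t, ht, rfl⟩ : ∃ t : ℝ, 0 ≤ t ∧ x = 3 + t := ⟨x - 3, by linarith, by ring⟩
  rw [abs_le]
  constructor
  · have : 0 ≤ f1 (4 * (3 + t)) + (9249 / 625) * (3 + t) ^ 6 := by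
      unfold f1; ring_nf; positivity
    linarith
  · have : 0 ≤ (9249 / 625) * (3 + t) ^ 6 - f1 (4 * (3 + t)) := by
      unfold f1; ring_nf; positivity
    linarith

lemma f2_a (x : ℝ) (hx : 3 ≤ x) : |f2 x| ≤ (327 / 1000) * x ^ 7 := by
  obtain ⟨t, ht, rfl⟩ : ∃ t : ℝ, 0 ≤ t ∧ x = 3 + t := ⟨x - 3, by linarith, by ring⟩
  rw [abs_le]
  constructor
  · have : 0 ≤ f2 (3 + t) + (327 / 1000) * (3 + t) ^ 7 := by
      unfold f2; ring_nf; positivity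
    linarith
  · have : 0 ≤ (327 / 1000) * (3 + t) ^ 7 - f2 (3 + t) := by
      unfold f2; ring_nf; positivity
    linarith

lemma f2_b (x : ℝ) (hx : 3 ≤ x) : |f2 (4 * x)| ≤ (40079 / 250) * x ^ 7 := by
  obtain ⟨t, ht, rfl⟩ : ∃ t : ℝ, 0 ≤ t ∧ x = 3 + t := ⟨x - 3, by linarith, by ring⟩
  rw [abs_le]
  constructor
  · have : 0 ≤ f2 (4 * (3 + t)) + (40079 / 250) * (3 + t) ^ 7 := by
      unfold f2; ring_nf; positivity
    linarith
  · have : 0 ≤ (40079 / 250) * (3 + t) ^ 7 - f2 (4 * (3 + t)) := by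
      unfold f2; ring_nf; positivity
    linarith

lemma f3_a (x : ℝ) (hx : 3 ≤ x) : |f3 x| ≤ (1 / 2) * x ^ 8 := by
  obtain ⟨t, ht, rfl⟩ : ∃ t : ℝ, 0 ≤ t ∧ x = 3 + t := ⟨x - 3, by linarith, by ring⟩
  rw [abs_le]
  constructor
  · have : 0 ≤ f3 (3 + t) + (1 / 2) * (3 + t) ^ 8 := by
      unfold f3; ring_nf; positivity
    linarith
  · have : 0 ≤ (1 / 2) * (3 + t) ^ 8 - f3 (3 + t) := by
      unfold f3; ring_nf; positivity
    linarith

lemma f3_b (x : ℝ) (hx : 3 ≤ x) : |f3 (4 * x)| ≤ (33913 / 25) * x ^ 8 := by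
  obtain ⟨t, ht, rfl⟩ : ∃ t : ℝ, 0 ≤ t ∧ x = 3 + t := ⟨x - 3, by linarith, by ring⟩
  rw [abs_le]
  constructor
  · have : 0 ≤ f3 (4 * (3 + t)) + (33913 / 25) * (3 + t) ^ 8 := by
      unfold f3; ring_nf; positivity
    linarith
  · have : 0 ≤ (33913 / 25) * (3 + t) ^ 8 - f3 (4 * (3 + t)) := by
      unfold f3; ring_nf; positivity
    linarith

lemma f4_a (x : ℝ) (hx : 3 ≤ x) : |f4 x| ≤ (559 / 100) * x ^ 9 := by
  obtain ⟨t, ht, rfl⟩ : ∃ t : ℝ, 0 ≤ t ∧ x = 3 + t := ⟨x - 3, by linarith, by ring⟩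
  rw [abs_le]
  constructor
  · have : 0 ≤ f4 (3 + t) + (559 / 100) * (3 + t) ^ 9 := by
      unfold f4; ring_nf; positivity
    linarith
  · have : 0 ≤ (559 / 100) * (3 + t) ^ 9 - f4 (3 + t) := by
      unfold f4; ring_nf; positivity
    linarith

lemma f4_b (x : ℝ) (hx : 3 ≤ x) : |f4 (4 * x)| ≤ (249723 / 25) * x ^ 9 := by
  obtain ⟨t, ht, rfl⟩ : ∃ t : ℝ, 0 ≤ t ∧ x = 3 + t := ⟨x - 3, by linarith, by ring⟩
  rw [abs_le]
  constructor
  · have : 0 ≤ f4 (4 * (3 + t)) + (249723 / 25) * (3 + t) ^ 9 := by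
      unfold f4; ring_nf; positivity
    linarith
  · have : 0 ≤ (249723 / 25) * (3 + t) ^ 9 - f4 (4 * (3 + t)) := by
      unfold f4; ring_nf; positivity
    linarith

lemma f5_a (x : ℝ) (hx : 3 ≤ x) : |f5 x| ≤ (35 / 4) * x ^ 10 := by
  obtain ⟨t, ht, rfl⟩ : ∃ t : ℝ, 0 ≤ t ∧ x = 3 + t := ⟨x - 3, by linarith, by ring⟩
  rw [abs_le]
  constructor
  · have : 0 ≤ f5 (3 + t) + (35 / 4) * (3 + t) ^ 10 := by
      unfold f5; ring_nf; positivity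
    linarith
  · have : 0 ≤ (35 / 4) * (3 + t) ^ 10 - f5 (3 + t) := by
      unfold f5; ring_nf; positivity
    linarith

lemma f5_b (x : ℝ) (hx : 3 ≤ x) : |f5 (4 * x)| ≤ (397707 / 5) * x ^ 10 := by
  obtain ⟨t, ht, rfl⟩ : ∃ t : ℝ, 0 ≤ t ∧ x = 3 + t := ⟨x - 3, by linarith, by ring⟩
  rw [abs_le]
  constructor
  · have : 0 ≤ f5 (4 * (3 + t)) + (397707 / 5) * (3 + t) ^ 10 := by
      unfold f5; ring_nf; positivity
    linarith
  · have : 0 ≤ (397707 / 5) * (3 + t) ^ 10 - f5 (4 * (3 + t)) := by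
      unfold f5; ring_nf; positivity
    linarith

lemma f6_a (x : ℝ) (hx : 3 ≤ x) : |f6 x| ≤ (687 / 5) * x ^ 11 := by
  obtain ⟨t, ht, rfl⟩ : ∃ t : ℝ, 0 ≤ t ∧ x = 3 + t := ⟨x - 3, by linarith, by ring⟩
  rw [abs_le]
  constructor
  · have : 0 ≤ f6 (3 + t) + (687 / 5) * (3 + t) ^ 11 := by
      unfold f6; ring_nf; positivity
    linarith
  · have : 0 ≤ (687 / 5) * (3 + t) ^ 11 - f6 (3 + t) := by
      unfold f6; ring_nf; positivity
    linarith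

lemma f6_b (x : ℝ) (hx : 3 ≤ x) : |f6 (4 * x)| ≤ (3366636 / 5) * x ^ 11 := by
  obtain ⟨t, ht, rfl⟩ : ∃ t : ℝ, 0 ≤ t ∧ x = 3 + t := ⟨x - 3, by linarith, by ring⟩
  rw [abs_le]
  constructor
  · have : 0 ≤ f6 (4 * (3 + t)) + (3366636 / 5) * (3 + t) ^ 11 := by
      unfold f6; ring_nf; positivity
    linarith
  · have : 0 ≤ (3366636 / 5) * (3 + t) ^ 11 - f6 (4 * (3 + t)) := by
      unfold f6; ring_nf; positivity
    linarith

end Pool.Agent.R571.PF
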