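import Mathlib

/-!
# The theta-type series `∑ e^u p(n² x) e^{-n² x}`, `x = π e^{4u}`
-/

open Finset Polynomial Real
open scoped BigOperators ContDiff

namespace Pool.Agent.R571.PF

/-- `x(u) = π e^{4u}`. -/
noncomputable def xx (u : ℝ) : ℝ := π * exp (4 * u)

lemma xx_pos (u : ℝ) : 0 < xx u := mul_pos pi_pos (exp_pos _)

/-- The `n`-th term `e^u p(z) e^{-z}`, `z = (n+1)² x(u)`. -/
noncomputable def term (p : ℝ[X]) (n : ℕ) (u : ℝ) : ℝ :=
  exp u * (p.eval (((n : ℝ) + 1) ^ 2 * xx u) * exp (-(((n : ℝ) + 1) ^ 2 * xx u)))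

/-- The series. -/
noncomputable def S (p : ℝ[X]) (u : ℝ) : ℝ := ∑' n, term p n u

/-- The operator on polynomials corresponding to `d/du`. -/
noncomputable def T (p : ℝ[X]) : ℝ[X] := p + C 4 * (X * derivative p - X * p)

lemma hasDerivAt_xx (u : ℝ) : HasDerivAt xx (4 * xx u) u := by
  unfold xx
  have h : HasDerivAt (fun u : ℝ => 4 * u) 4 u := by
    simpa using (hasDerivAt_id u).const_mul (4 : ℝ)
  exact ((h.exp).const_mul π).congr_deriv (by ring)

lemma hasDerivAt_term (p : ℝ[X]) (n : ℕ) (u : ℝ) : HasDerivAt (term p n) (term (T p) n u) u := by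
  have hz : HasDerivAt (fun u => ((n : ℝ) + 1) ^ 2 * xx u) (((n : ℝ) + 1) ^ 2 * (4 * xx u)) u :=
    (hasDerivAt_xx u).const_mul _
  have hp : HasDerivAt (fun u => p.eval (((n : ℝ) + 1) ^ 2 * xx u))
      ((derivative p).eval (((n : ℝ) + 1) ^ 2 * xx u) * (((n : ℝ) + 1) ^ 2 * (4 * xx u))) u := by
    have h := HasDerivAt.comp (h₂ := fun z => p.eval z) u (p.hasDerivAt (((n : ℝ) + 1) ^ 2 * xx u)) hz
    exact h
  have he := (hz.fun_neg).exp
  refine ((Real.hasDerivAt_exp u).fun_mul (hp.fun_mul he)).congr_deriv ?_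
  simp only [term, T, eval_add, eval_mul, eval_C, eval_sub, eval_X]
  ring

lemma poly_bound (p : ℝ[X]) : ∃ c : ℝ, 0 ≤ c ∧ ∀ z : ℝ, 0 ≤ z →
    |p.eval z| * exp (-z) ≤ c * exp (-(z / 2)) := by
  induction p using Polynomial.induction_on' with
  | add p q hp hq =>
    obtain ⟨c1, h1, h1'⟩ := hp
    obtain ⟨c2, h2, h2'⟩ := hq
    refine ⟨c1 + c2, by positivity, fun z hz => ?_⟩
    rw [eval_add]
    calc |p.eval z + q.eval z| * exp (-z) ≤ (|p.eval z| + |q.eval z|) * exp (-z) := by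
          gcongr; exact abs_add_le _ _
      _ ≤ c1 * exp (-(z/2)) + c2 * exp (-(z/2)) := by
          rw [add_mul]; exact add_le_add (h1' z hz) (h2' z hz)
      _ = _ := by ring
  | monomial m a =>
    refine ⟨|a| * (m.factorial * 2 ^ m), by positivity, fun z hz => ?_⟩
    rw [eval_monomial, abs_mul, abs_of_nonneg (pow_nonneg hz m)]
    have h := Real.pow_div_factorial_le_exp (z / 2) (by positivity) m
    rw [div_le_iff₀ (by positivity)] at h
    have e : exp (-z) = exp (-(z/2)) * exp (-(z/2)) := by rw [← exp_add]; ring_nf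
    have h1 : z ^ m * exp (-(z/2)) ≤ m.factorial * 2 ^ m := by
      have e2 : exp (z/2) * exp (-(z/2)) = 1 := by rw [← exp_add]; simp
      have e3 : z ^ m = (z/2) ^ m * 2 ^ m := by rw [← mul_pow]; ring_nf
      calc z ^ m * exp (-(z/2)) = ((z/2)^m * exp (-(z/2))) * 2^m := by rw [e3]; ring
        _ ≤ ((exp (z/2) * m.factorial) * exp (-(z/2))) * 2 ^ m := by gcongr
        _ = (exp (z/2) * exp (-(z/2))) * (m.factorial * 2 ^ m) := by ring
        _ = _ := by rw [e2]; ring
    calc |a| * z ^ m * exp (-z) = |a| * (z ^ m * exp (-(z/2))) * exp (-(z/2)) := by rw [e]; ring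
      _ ≤ |a| * (m.factorial * 2 ^ m) * exp (-(z/2)) := by gcongr

lemma term_bound (p : ℝ[X]) : ∃ c : ℝ, 0 ≤ c ∧ ∀ a b u : ℝ, a ≤ u → u ≤ b → ∀ n : ℕ,
    ‖term p n u‖ ≤ exp b * c * (exp (-(xx a / 2))) ^ n := by
  obtain ⟨c, hc, h⟩ := poly_bound p
  refine ⟨c, hc, fun a b u hau hub n => ?_⟩
  have hx := xx_pos u
  have hxa : xx a ≤ xx u := by unfold xx; gcongr
  have h1 := h (((n : ℝ) + 1) ^ 2 * xx u) (by positivity)
  unfold term
  rw [norm_mul, norm_mul, Real.norm_eq_abs, Real.norm_eq_abs, Real.norm_eq_abs, abs_of_pos (exp_pos _),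
    abs_of_pos (exp_pos (-_))]
  calc exp u * (|p.eval (((n : ℝ) + 1) ^ 2 * xx u)| * exp (-(((n : ℝ) + 1) ^ 2 * xx u)))
      ≤ exp b * (c * exp (-(((n : ℝ) + 1) ^ 2 * xx u / 2))) := by gcongr
    _ ≤ exp b * (c * (exp (-(xx a / 2))) ^ n) := by
        gcongr
        rw [← exp_nat_mul]
        apply exp_le_exp.2
        have h2 : (n : ℝ) ≤ ((n : ℝ) + 1) ^ 2 := by nlinarith [Nat.cast_nonneg (α := ℝ) n]
        have h3 : (n : ℝ) * xx a ≤ ((n : ℝ) + 1) ^ 2 * xx u :=
          mul_le_mul h2 hxa (xx_pos a).le (by positivity)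
        linarith
    _ = _ := by ring

lemma summable_geo (a : ℝ) (k : ℝ) : Summable fun n : ℕ => k * (exp (-(xx a / 2))) ^ n := by
  apply Summable.mul_left
  apply summable_geometric_of_lt_one (exp_pos _).le
  rw [exp_lt_one_iff]
  have := xx_pos a
  linarith

lemma summable_term (p : ℝ[X]) (u : ℝ) : Summable fun n => term p n u := by
  obtain ⟨c, hc, h⟩ := term_bound p
  exact Summable.of_norm_bounded (summable_geo u (exp u * c)) (fun n => h u u u le_rfl le_rfl n)

theorem hasDerivAt_S (p : ℝ[X]) (u : ℝ) : HasDerivAt (S p) (S (T p) u) u := by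
  obtain ⟨c, hc, h⟩ := term_bound (T p)
  exact hasDerivAt_tsum_of_isPreconnected (t := Set.Ioo (u - 1) (u + 1))
    (summable_geo (u - 1) (exp (u + 1) * c)) isOpen_Ioo isPreconnected_Ioo
    (fun n y _ => hasDerivAt_term p n y)
    (fun n y hy => h (u - 1) (u + 1) y hy.1.le hy.2.le n)
    (y₀ := u) (by constructor <;> linarith) (summable_term p u) (by constructor <;> linarith)

lemma deriv_S (p : ℝ[X]) : deriv (S p) = S (T p) := by
  funext u; exact (hasDerivAt_S p u).deriv

lemma contDiff_S (p : ℝ[X]) : ContDiff ℝ ∞ (S p) := by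
  rw [contDiff_infty]
  intro n
  induction n generalizing p with
  | zero =>
    have : Continuous (S p) := continuous_iff_continuousAt.2 fun u => (hasDerivAt_S p u).continuousAt
    simpa using this
  | succ n ih =>
    have h : ((n + 1 : ℕ) : ℕ∞ω) = (n : ℕ∞ω) + 1 := by push_cast; rfl
    rw [h, contDiff_succ_iff_deriv]
    refine ⟨fun u => (hasDerivAt_S p u).differentiableAt, by simp, ?_⟩
    rw [deriv_S]
    exact ih (T p)

lemma iteratedDeriv_S (p : ℝ[X]) (k : ℕ) : iteratedDeriv k (S p) = S (T^[k] p) := by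
  induction k generalizing p with
  | zero => simp
  | succ k ih =>
    rw [iteratedDeriv_succ', deriv_S, ih]
    rfl

lemma S_add (p q : ℝ[X]) (u : ℝ) : S (p + q) u = S p u + S q u := by
  unfold S
  rw [← (summable_term p u).tsum_add (summable_term q u)]
  congr 1
  funext n
  simp only [term, eval_add]
  ring

lemma S_C_mul (a : ℝ) (p : ℝ[X]) (u : ℝ) : S (C a * p) u = a * S p u := by
  unfold S
  rw [← tsum_mul_left]
  congr 1
  funext n
  simp only [term, eval_mul, eval_C]
  ring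

/-! ### Evenness -/

lemma theta_even (u : ℝ) : exp (-u) + 2 * S 1 (-u) = exp u + 2 * S 1 u := by
  have key : ∀ u : ℝ, exp u + 2 * S 1 u =
      exp u * ∑' n : ℤ, exp (-π * exp (4 * u) * (n : ℝ) ^ 2) := by
    intro u
    have hs : HasSum (fun n : ℕ => exp (-(((n : ℝ) + 1) ^ 2 * xx u))) (exp (-u) * S 1 u) := by
      have h := (summable_term 1 u).hasSum.mul_left (exp (-u))
      have e : (fun n : ℕ => exp (-(((n : ℝ) + 1) ^ 2 * xx u))) = fun n => exp (-u) * term 1 n u := by
        funext n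
        simp only [term, eval_one, one_mul]
        rw [← mul_assoc, ← exp_add]; simp
      rw [e]
      exact h
    have h1 : HasSum (fun n : ℕ => exp (-π * exp (4 * u) * ((n : ℤ) : ℝ) ^ 2)) (1 + exp (-u) * S 1 u) := by
      have e : (fun n : ℕ => exp (-π * exp (4 * u) * (((n + 1 : ℕ) : ℤ) : ℝ) ^ 2)) =
          (fun n : ℕ => exp (-(((n : ℝ) + 1) ^ 2 * xx u))) := by
        funext n
        congr 1
        unfold xx
        push_cast
        ring
      have := (hasSum_nat_add_iff (f := fun n : ℕ => exp (-π * exp (4 * u) * ((n : ℤ) : ℝ) ^ 2)) 1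
        (g := exp (-u) * S 1 u)).1 (by rw [← e] at hs; exact hs)
      have e2 : 1 + exp (-u) * S 1 u = exp (-u) * S 1 u + ∑ i ∈ Finset.range 1, exp (-π * exp (4 * u) * ((i : ℤ) : ℝ) ^ 2) := by
        simp
        ring
      rw [e2]
      exact this
    have h2 : HasSum (fun n : ℕ => exp (-π * exp (4 * u) * ((-((n : ℤ) + 1) : ℤ) : ℝ) ^ 2)) (exp (-u) * S 1 u) := by
      have e : (fun n : ℕ => exp (-π * exp (4 * u) * ((-((n : ℤ) + 1) : ℤ) : ℝ) ^ 2)) =
          (fun n : ℕ => exp (-(((n : ℝ) + 1) ^ 2 * xx u))) := by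
        funext n
        congr 1
        unfold xx
        push_cast
        ring
      rw [e]
      exact hs
    have h3 := HasSum.of_nat_of_neg_add_one (f := fun n : ℤ => exp (-π * exp (4 * u) * (n : ℝ) ^ 2)) h1 h2
    rw [h3.tsum_eq]
    have e : exp u * exp (-u) = 1 := by rw [← exp_add]; simp
    linear_combination (-2 * S 1 u) * e
  rw [key u, key (-u), Real.tsum_exp_neg_mul_int_sq (exp_pos (4 * u))]
  have e1 : (exp (4 * u)) ^ (1 / 2 : ℝ) = exp (2 * u) := by
    rw [← exp_mul]; ring_nf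
  have e2 : -π / exp (4 * u) = -π * exp (4 * -u) := by
    rw [mul_neg, exp_neg]; field_simp
  rw [e1, e2, ← mul_assoc]
  congr 1
  rw [one_div, ← exp_neg, ← exp_add]
  ring_nf

/-- `2X² - 3X`. -/
noncomputable def p0 : ℝ[X] := C 2 * X ^ 2 - C 3 * X

lemma S_even (u : ℝ) : S p0 (-u) = S p0 u := by
  have hd0 : ∀ (p : ℝ[X]) (c d : ℝ) (u : ℝ), HasDerivAt (fun u => c * exp u + d * S p u) (c * exp u + d * S (T p) u) u :=
    fun p c d u => ((Real.hasDerivAt_exp u).const_mul c).add ((hasDerivAt_S p u).const_mul d)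
  have hneg : ∀ (f : ℝ → ℝ) (f' : ℝ) (u : ℝ), HasDerivAt f f' (-u) → HasDerivAt (fun u => f (-u)) (-f') u := by
    intro f f' u h
    have := h.comp u (hasDerivAt_neg u)
    simpa [Function.comp_def] using this
  -- even
  have h0 : ∀ u, (fun u => 1 * exp u + 2 * S 1 u) (-u) = (fun u => 1 * exp u + 2 * S 1 u) u := by
    intro u; simp only [one_mul]; exact theta_even u
  have h1 : ∀ u, -(1 * exp (-u) + 2 * S (T 1) (-u)) = 1 * exp u + 2 * S (T 1) u := by
    intro u
    have a := hneg _ _ u (hd0 1 1 2 (-u))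
    have b := hd0 1 1 2 u
    have e : (fun u => (fun u => 1 * exp u + 2 * S 1 u) (-u)) = (fun u => 1 * exp u + 2 * S 1 u) := funext h0
    simp only at e
    rw [e] at a
    exact a.unique b
  have h2 : ∀ u, (1 * exp (-u) + 2 * S (T (T 1)) (-u)) = 1 * exp u + 2 * S (T (T 1)) u := by
    intro u
    have a := (hneg _ _ u (hd0 (T 1) 1 2 (-u))).neg
    have b := hd0 (T 1) 1 2 u
    have e : (-fun u => 1 * exp (-u) + 2 * S (T 1) (-u)) = (fun u => 1 * exp u + 2 * S (T 1) u) := by
      funext v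
      exact h1 v
    rw [e] at a
    have := a.unique b
    simpa using this
  have hp : T (T 1) = C 8 * p0 + 1 := by
    simp only [T, p0, derivative_one, mul_zero, zero_sub, mul_one, derivative_add, derivative_mul, derivative_C,
      zero_mul, derivative_neg, derivative_X, zero_add, mul_neg, derivative_one]
    have e4 : (C 4 : ℝ[X]) = 4 := rfl
    have e8 : (C 8 : ℝ[X]) = 8 := rfl
    have e2 : (C 2 : ℝ[X]) = 2 := rfl
    have e3 : (C 3 : ℝ[X]) = 3 := rfl
    rw [e4, e8, e2, e3]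
    ring
  have h3 := h2 u
  have h4 := theta_even u
  rw [hp, S_add, S_C_mul, S_add, S_C_mul] at h3
  linarith

end Pool.Agent.R571.PF
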