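import Pool.Agent.R571.PF.Series

/-!
# The tail of the series
-/

open Finset Polynomial Real
open scoped BigOperators ContDiff

namespace Pool.Agent.R571.PF

lemma pi_le_xx {u : ℝ} (hu : 0 ≤ u) : π ≤ xx u := by
  unfold xx
  have : (1 : ℝ) ≤ exp (4 * u) := Real.one_le_exp (by positivity)
  nlinarith [pi_pos]

lemma exp_neg_five : exp (-5) ≤ 1 / 100 := by
  rw [exp_neg, inv_eq_one_div]
  apply one_div_le_one_div_of_le (by norm_num)
  have h := Real.exp_one_gt_d9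
  have e : exp 5 = exp 1 ^ 5 := by rw [← exp_nat_mul]; norm_num
  rw [e]
  calc (100 : ℝ) ≤ 2.7182818283 ^ 5 := by norm_num
    _ ≤ exp 1 ^ 5 := by gcongr

lemma tail_term (x : ℝ) (hx : 3 ≤ x) (k : ℕ) (hk : k ≤ 8) (n : ℕ) :
    (((n : ℝ) + 3) ^ 2 * x) ^ k * exp (-((((n : ℝ) + 3) ^ 2 - 1) * x))
      ≤ (9 * x) ^ k * exp (-(8 * x)) * (1 / 100) ^ n := by
  have hx0 : 0 < x := by linarith
  have hn : (0 : ℝ) ≤ n := Nat.cast_nonneg n
  set w : ℝ := (n : ℝ) ^ 2 + 6 * n with hw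
  have hw0 : 0 ≤ w := by positivity
  have e1 : ((n : ℝ) + 3) ^ 2 = 9 * (1 + w / 9) := by rw [hw]; ring
  have e2 : (((n : ℝ) + 3) ^ 2 * x) ^ k = (9 * x) ^ k * (1 + w / 9) ^ k := by
    rw [e1, ← mul_pow]; ring_nf
  have e3 : exp (-((((n : ℝ) + 3) ^ 2 - 1) * x)) = exp (-(8 * x)) * exp (-(w * x)) := by
    rw [← exp_add]; congr 1; rw [e1]; ring
  have h1 : (1 + w / 9) ^ k ≤ exp (8 * w / 9) := by
    calc (1 + w / 9) ^ k ≤ (1 + w / 9) ^ 8 := pow_le_pow_right₀ (by linarith [show 0 ≤ w / 9 by positivity]) hk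
      _ ≤ (exp (w / 9)) ^ 8 := by
          gcongr
          rw [add_comm]; exact add_one_le_exp _
      _ = exp (8 * w / 9) := by rw [← exp_nat_mul]; congr 1; push_cast; ring
  have h2 : (1 + w / 9) ^ k * exp (-(w * x)) ≤ (1 / 100) ^ n := by
    calc (1 + w / 9) ^ k * exp (-(w * x)) ≤ exp (8 * w / 9) * exp (-(w * x)) := by gcongr
      _ = exp (8 * w / 9 - w * x) := by rw [← exp_add]; ring_nf
      _ ≤ exp (n * (-5)) := by
          apply exp_le_exp.2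
          have : w * 3 ≤ w * x := by gcongr
          have h6 : 6 * (n : ℝ) ≤ w := by rw [hw]; nlinarith
          nlinarith
      _ = (exp (-5)) ^ n := by rw [← exp_nat_mul]
      _ ≤ (1 / 100) ^ n := by gcongr; exact exp_neg_five
  rw [e2, e3]
  calc (9 * x) ^ k * (1 + w / 9) ^ k * (exp (-(8 * x)) * exp (-(w * x)))
      = ((9 * x) ^ k * exp (-(8 * x))) * ((1 + w / 9) ^ k * exp (-(w * x))) := by ring
    _ ≤ ((9 * x) ^ k * exp (-(8 * x))) * (1 / 100) ^ n := by gcongr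

theorem tail_bound (p : ℝ[X]) (c : ℝ) (k : ℕ) (hk : k ≤ 8) (hc : 0 ≤ c)
    (hp : ∀ z : ℝ, 27 ≤ z → |p.eval z| ≤ c * z ^ k) (u : ℝ) (hu : 0 ≤ u) :
    |exp (xx u - u) * S p u - (p.eval (xx u) + exp (-(3 * xx u)) * p.eval (4 * xx u))|
      ≤ c * (21 / 20) * (9 * xx u) ^ k * exp (-(8 * xx u)) := by
  have hx3 : 3 ≤ xx u := (pi_gt_three.le).trans (pi_le_xx hu)
  set x := xx u with hx
  have hx0 : 0 < x := by linarith
  have hsum := (summable_term p u).mul_left (exp (x - u))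
  have hS : exp (x - u) * S p u = ∑' n, exp (x - u) * term p n u := by
    unfold S; rw [tsum_mul_left]
  have hterm : ∀ n : ℕ, exp (x - u) * term p n u =
      p.eval (((n : ℝ) + 1) ^ 2 * x) * exp (-((((n : ℝ) + 1) ^ 2 - 1) * x)) := by
    intro n
    unfold term
    rw [← hx]
    have : exp (-((((n : ℝ) + 1) ^ 2 - 1) * x)) = exp (x - u) * exp u * exp (-(((n : ℝ) + 1) ^ 2 * x)) := by
      rw [← exp_add, ← exp_add]; ring_nf
    rw [this]; ring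
  rw [hS, ← hsum.sum_add_tsum_nat_add 2]
  simp only [Finset.sum_range_succ, Finset.sum_range_zero, hterm]
  have hb : ∀ n : ℕ, ‖p.eval ((((n + 2 : ℕ) : ℝ) + 1) ^ 2 * x) * exp (-(((((n + 2 : ℕ) : ℝ) + 1) ^ 2 - 1) * x))‖
      ≤ c * ((9 * x) ^ k * exp (-(8 * x))) * (1 / 100) ^ n := by
    intro n
    have hn : (0 : ℝ) ≤ n := Nat.cast_nonneg n
    have e : (((n + 2 : ℕ) : ℝ) + 1) = (n : ℝ) + 3 := by push_cast; ring
    rw [e, norm_mul, Real.norm_eq_abs, Real.norm_eq_abs, abs_of_pos (exp_pos _)]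
    have hz : 27 ≤ ((n : ℝ) + 3) ^ 2 * x := by nlinarith
    calc |p.eval (((n : ℝ) + 3) ^ 2 * x)| * exp (-((((n : ℝ) + 3) ^ 2 - 1) * x))
        ≤ (c * (((n : ℝ) + 3) ^ 2 * x) ^ k) * exp (-((((n : ℝ) + 3) ^ 2 - 1) * x)) := by
          gcongr; exact hp _ hz
      _ = c * ((((n : ℝ) + 3) ^ 2 * x) ^ k * exp (-((((n : ℝ) + 3) ^ 2 - 1) * x))) := by ring
      _ ≤ c * ((9 * x) ^ k * exp (-(8 * x)) * (1 / 100) ^ n) :=
          mul_le_mul_of_nonneg_left (tail_term x hx3 k hk n) hc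
      _ = _ := by ring
  have hg : HasSum (fun n : ℕ => c * ((9 * x) ^ k * exp (-(8 * x))) * (1 / 100 : ℝ) ^ n)
      (c * ((9 * x) ^ k * exp (-(8 * x))) * (1 - 1 / 100)⁻¹) :=
    (hasSum_geometric_of_lt_one (by norm_num) (by norm_num)).mul_left _
  have hnb := tsum_of_norm_bounded hg hb
  rw [Real.norm_eq_abs] at hnb
  have e1 : 0 + eval ((((0 : ℕ) : ℝ) + 1) ^ 2 * x) p * exp (-(((((0 : ℕ) : ℝ) + 1) ^ 2 - 1) * x)) +
      eval ((((1 : ℕ) : ℝ) + 1) ^ 2 * x) p * exp (-(((((1 : ℕ) : ℝ) + 1) ^ 2 - 1) * x)) =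
      p.eval x + exp (-(3 * x)) * p.eval (4 * x) := by
    norm_num
    ring
  rw [e1, add_sub_cancel_left]
  refine hnb.trans ?_
  have hpos : 0 ≤ c * ((9 * x) ^ k * exp (-(8 * x))) := by positivity
  calc c * ((9 * x) ^ k * exp (-(8 * x))) * (1 - 1 / 100)⁻¹
      ≤ c * ((9 * x) ^ k * exp (-(8 * x))) * (21 / 20) := by gcongr; norm_num
    _ = _ := by ring

end Pool.Agent.R571.PF
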